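import Pool.Agent.R803.MM.Bound2

/-!
# Third derivatives: a bound from test matrices
-/

namespace Pool.Agent.R803.PG

set_option linter.unusedSectionVars false
set_option linter.unusedSimpArgs false

open MvPolynomial Pool.Agent.H53R3 Pool.Agent.H515R2.MMR Pool.Agent.R803.MM

/-- The coefficient of `X 0 * X 1 * X 2`. -/
noncomputable def lam (p : R0) : ℂ := constantCoeff (pderiv 0 (pderiv 1 (pderiv 2 p)))

/-- **Third derivatives.** If the third derivative of a polynomial at an affine family of points is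
a multiple of the form `tr (X Y Z)`, then its complexity bounds the exponent. -/
theorem bound3_test {M L q : ℕ} (hq : 1 ≤ q) (g : Pl M)
    (hL : SLPComputes (xv (m := M)) L {algebraMap (Pl M) (RF M) g})
    (pt : (Fin 3 → Matrix (Fin q) (Fin q) R0) → Fin M → R0)
    (hpt : ∀ t, IsAff fun X => pt X t) (b : ℂ) (hb : b ≠ 0)
    (hval : ∀ i j j' k k' l, lam (aeval (pt (tst i j j' k k' l)) g) =
      if j = j' ∧ k = k' ∧ l = i then b else 0) :
    (q : ℝ) ^ omega ≤ 6 * L := by
  classical
  obtain ⟨c₀, v, hv⟩ := exists_directions pt hpt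
  -- the third derivative
  have hD : ∀ i j j' k k' l, eval c₀ (dir (v 0 i j) (dir (v 1 j' k) (dir (v 2 k' l) g))) =
      if j = j' ∧ k = k' ∧ l = i then b else 0 := by
    intro i j j' k k' l
    rw [← third (pt (tst i j j' k k' l)) c₀ (v 0 i j) (v 1 j' k) (v 2 k' l) (hv i j j' k k' l) g]
    exact hval i j j' k k' l
  obtain ⟨G, hG, hf⟩ := hL
  obtain ⟨p, q', hpq⟩ := slp_derivatives dv isDer_dv dv_algebraMap xv dv_dv_xv L G hG
  obtain ⟨y, hy⟩ := Q3_repr p q' (hpq L le_rfl _ (hf _ rfl)).2
  -- common denominator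
  obtain ⟨d, hd0, hd⟩ := exists_den
    (((Finset.range L) ×ˢ (Finset.univ : Finset (Fin M))).image (fun z => y z.1 z.2) ∪
    (((Finset.range L) ×ˢ (Finset.univ : Finset (Fin M))).image (fun z => p z.1 z.2) ∪
    ((Finset.range L) ×ˢ (Finset.univ : Finset (Fin M))).image (fun z => q' z.1 z.2)))
  have hY : ∀ (k : Fin L) i, ∃ P : Pl M, algebraMap (Pl M) (RF M) P =
      algebraMap (Pl M) (RF M) d * y k i := fun k i => hd _ (Finset.mem_union_left _
    (Finset.mem_image.mpr ⟨((k : ℕ), i), by simp, rfl⟩))
  have hPp : ∀ (k : Fin L) i, ∃ P : Pl M, algebraMap (Pl M) (RF M) P =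
      algebraMap (Pl M) (RF M) d * p k i := fun k i => hd _ (Finset.mem_union_right _
    (Finset.mem_union_left _ (Finset.mem_image.mpr ⟨((k : ℕ), i), by simp, rfl⟩)))
  have hQ : ∀ (k : Fin L) i, ∃ P : Pl M, algebraMap (Pl M) (RF M) P =
      algebraMap (Pl M) (RF M) d * q' k i := fun k i => hd _ (Finset.mem_union_right _
    (Finset.mem_union_right _ (Finset.mem_image.mpr ⟨((k : ℕ), i), by simp, rfl⟩)))
  choose Y hY using hY
  choose P hPp using hPp
  choose Q hQ using hQ
  have hinj : Function.Injective (algebraMap (Pl M) (RF M)) := IsFractionRing.injective _ _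
  have hpoly : ∀ i j s, d ^ 3 * pderiv i (pderiv j (pderiv s g)) =
      ∑ k : Fin L, (Y k i * (P k j * Q k s + P k s * Q k j) +
        Y k j * (P k i * Q k s + P k s * Q k i) + Y k s * (P k i * Q k j + P k j * Q k i)) := by
    intro i j s
    apply hinj
    have h1 := congrFun (congrFun (congrFun hy i) j) s
    simp only [Ts, dv_poly] at h1
    rw [map_mul, map_pow, h1, map_sum, Finset.sum_apply, Finset.sum_apply, Finset.sum_apply,
      Finset.sum_range, Finset.mul_sum]
    refine Finset.sum_congr rfl fun k _ => ?_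
    simp only [map_add, map_mul, hY, hPp, hQ, S3]
    ring
  -- a line through the point
  obtain ⟨dirv, h, e, he0, hline⟩ := exists_line c₀ hd0
  set ψ := line c₀ dirv with hψ
  have hcontr : ∀ u v w : Fin M → ℂ,
      ∑ k : Fin L, (dt u (fun t => ψ (Y k t)) * dt v (fun t => ψ (P k t)) *
          dt w (fun t => ψ (Q k t)) +
        dt u (fun t => ψ (Y k t)) * dt v (fun t => ψ (Q k t)) * dt w (fun t => ψ (P k t)) +
        dt u (fun t => ψ (P k t)) * dt v (fun t => ψ (Y k t)) * dt w (fun t => ψ (Q k t)) +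
        dt u (fun t => ψ (Q k t)) * dt v (fun t => ψ (Y k t)) * dt w (fun t => ψ (P k t)) +
        dt u (fun t => ψ (P k t)) * dt v (fun t => ψ (Q k t)) * dt w (fun t => ψ (Y k t)) +
        dt u (fun t => ψ (Q k t)) * dt v (fun t => ψ (P k t)) * dt w (fun t => ψ (Y k t))) =
      Polynomial.X ^ (3 * h) * (e ^ 3 * ψ (dir u (dir v (dir w g)))) := by
    intro u v w
    have e1 : Polynomial.X ^ (3 * h) * (e ^ 3 * ψ (dir u (dir v (dir w g)))) =
        ψ (d ^ 3 * dir u (dir v (dir w g))) := by
      rw [map_mul, map_pow, hline]; ring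
    rw [e1, dir_dir_dir, Finset.mul_sum, map_sum]
    have e2 : ∀ a, ψ (d ^ 3 * ∑ b, ∑ c, C (u a) * C (v b) * C (w c) *
        pderiv a (pderiv b (pderiv c g))) = ∑ b, ∑ c, ∑ k : Fin L,
        ((Polynomial.C (u a) * ψ (Y k a)) * (Polynomial.C (v b) * ψ (P k b)) *
            (Polynomial.C (w c) * ψ (Q k c)) +
          (Polynomial.C (u a) * ψ (Y k a)) * (Polynomial.C (v b) * ψ (Q k b)) *
            (Polynomial.C (w c) * ψ (P k c)) +
          (Polynomial.C (u a) * ψ (P k a)) * (Polynomial.C (v b) * ψ (Y k b)) *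
            (Polynomial.C (w c) * ψ (Q k c)) +
          (Polynomial.C (u a) * ψ (Q k a)) * (Polynomial.C (v b) * ψ (Y k b)) *
            (Polynomial.C (w c) * ψ (P k c)) +
          (Polynomial.C (u a) * ψ (P k a)) * (Polynomial.C (v b) * ψ (Q k b)) *
            (Polynomial.C (w c) * ψ (Y k c)) +
          (Polynomial.C (u a) * ψ (Q k a)) * (Polynomial.C (v b) * ψ (P k b)) *
            (Polynomial.C (w c) * ψ (Y k c))) := by
      intro a
      rw [Finset.mul_sum, map_sum]
      refine Finset.sum_congr rfl fun b _ => ?_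
      rw [Finset.mul_sum, map_sum]
      refine Finset.sum_congr rfl fun c _ => ?_
      have e3 : d ^ 3 * (C (u a) * C (v b) * C (w c) * pderiv a (pderiv b (pderiv c g))) =
          C (u a) * C (v b) * C (w c) * (d ^ 3 * pderiv a (pderiv b (pderiv c g))) := by ring
      have hC : ∀ z : ℂ, ψ (C z) = Polynomial.C z := by
        intro z; simp [hψ, line]
      rw [e3, hpoly, map_mul, map_mul, map_mul, hC, hC, hC, map_sum, Finset.mul_sum]
      refine Finset.sum_congr rfl fun k _ => ?_
      simp only [map_add, map_mul]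
      ring
    rw [Finset.sum_congr rfl fun a _ => e2 a]
    have e4 : ∀ f : Fin L → Fin M → Fin M → Fin M → Polynomial ℂ,
        ∑ a, ∑ b, ∑ c, ∑ k, f k a b c = ∑ k, ∑ a, ∑ b, ∑ c, f k a b c := by
      intro f
      rw [Finset.sum_congr rfl fun a _ => Finset.sum_congr rfl fun b _ => Finset.sum_comm,
        Finset.sum_congr rfl fun a _ => Finset.sum_comm, Finset.sum_comm]
    rw [e4]
    refine Finset.sum_congr rfl fun k _ => ?_
    simp only [Finset.sum_add_distrib, sum3]
    rfl
  -- the approximate decomposition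
  set s : ℂ := (b * e.eval 0 ^ 3)⁻¹ with hs
  have hAD : AD (Fin q) (Fin (L * 6)) (3 * h) := by
    refine ⟨fun t i j => dt (v 0 i j) (fun x => ψ ((![Y, Y, P, Q, P, Q] : Fin 6 → Fin L → Fin M →
        Pl M) (finProdFinEquiv.symm t).2 (finProdFinEquiv.symm t).1 x)),
      fun t i j => dt (v 1 i j) (fun x => ψ ((![P, Q, Y, Y, Q, P] : Fin 6 → Fin L → Fin M →
        Pl M) (finProdFinEquiv.symm t).2 (finProdFinEquiv.symm t).1 x)),
      fun t i j => Polynomial.C s * dt (v 2 i j) (fun x => ψ ((![Q, P, Q, P, Y, Y] :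
        Fin 6 → Fin L → Fin M →
        Pl M) (finProdFinEquiv.symm t).2 (finProdFinEquiv.symm t).1 x)),
      fun i j j' k k' l => Polynomial.C s *
        (e ^ 3 * ψ (dir (v 0 i j) (dir (v 1 j' k) (dir (v 2 k' l) g)))), ?_⟩
    intro i j j' k k' l
    constructor
    · rw [mul_left_comm, ← hcontr, Finset.mul_sum]
      rw [Equiv.sum_comp finProdFinEquiv.symm (fun t : Fin L × Fin 6 =>
        dt (v 0 i j) (fun x => ψ ((![Y, Y, P, Q, P, Q] : Fin 6 → Fin L → Fin M →
          Pl M) t.2 t.1 x)) *
        dt (v 1 j' k) (fun x => ψ ((![P, Q, Y, Y, Q, P] : Fin 6 → Fin L → Fin M →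
          Pl M) t.2 t.1 x)) *
        (Polynomial.C s * dt (v 2 k' l) (fun x => ψ ((![Q, P, Q, P, Y, Y] :
          Fin 6 → Fin L → Fin M → Pl M) t.2 t.1 x)))), Fintype.sum_prod_type]
      refine Finset.sum_congr rfl fun t _ => ?_
      rw [Fin.sum_univ_six]
      simp only [Matrix.cons_val_zero, Matrix.cons_val_one, Matrix.cons_val]
      ring
    · rw [Polynomial.eval_mul, Polynomial.eval_C, Polynomial.eval_mul, Polynomial.eval_pow, hψ,
        line_eval]
      have e5 : (fun t => c₀ t + 0 * dirv t) = c₀ := by funext t; ring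
      rw [e5, hD, hs]
      split_ifs
      · field_simp
      · ring
  have := hAD.omega_le hq
  push_cast at this
  linarith

lemma lam_add (p q : R0) : lam (p + q) = lam p + lam q := by
  unfold lam; simp only [map_add]

lemma lam_sum {α : Type*} (s : Finset α) (f : α → R0) : lam (∑ a ∈ s, f a) = ∑ a ∈ s, lam (f a) := by
  unfold lam; simp only [map_sum]

lemma lam_C_mul (c : ℂ) (p : R0) : lam (C c * p) = c * lam p := by
  unfold lam
  simp only [← smul_eq_C_mul, Derivation.map_smul]
  rw [smul_eq_C_mul, map_mul, constantCoeff_C]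

/-- Change of the sign of one variable. -/
noncomputable def neg1 (e : Fin 3) : R0 →ₐ[ℂ] R0 := aeval fun i => if i = e then -X i else X i

lemma lam_eq_coeff (p : R0) : lam p =
    coeff (Finsupp.single 0 1 + Finsupp.single 1 1 + Finsupp.single 2 1) p := by
  unfold lam
  rw [constantCoeff_eq, coeff_pderiv, coeff_pderiv, coeff_pderiv]
  simp [add_assoc]

lemma lam_neg1 (e : Fin 3) (p : R0) : lam (neg1 e p) = -lam p := by
  have h : ∀ (i : Fin 3) (p : R0), pderiv i (neg1 e p) =
      (if i = e then -1 else 1 : R0) * neg1 e (pderiv i p) := by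
    intro i p
    induction p using MvPolynomial.induction_on with
    | C a => simp [neg1]
    | add p q hp hq => rw [map_add, map_add, hp, hq, map_add, map_add, mul_add]
    | mul_X p j hp =>
      rw [map_mul, Derivation.leibniz, hp, Derivation.leibniz, map_add, smul_eq_mul, smul_eq_mul,
        smul_eq_mul, smul_eq_mul, map_mul, map_mul]
      have e1 : neg1 e (X j) = (if j = e then -X j else X j) := by simp [neg1]
      have e2 : pderiv i (neg1 e (X j)) = (if i = e then -1 else 1 : R0) * neg1 e (pderiv i (X j)) := by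
        rw [e1]
        by_cases hij : i = j
        · subst hij
          by_cases hie : i = e
          · subst hie; simp
          · simp [hie]
        · by_cases hje : j = e
          · subst hje
            simp [pderiv_X, Pi.single_apply, Ne.symm hij, hij]
          · simp [pderiv_X, Pi.single_apply, Ne.symm hij, hje]
      rw [e2]
      ring
  unfold lam
  rw [h 2]
  have hc : ∀ (i : Fin 3) (j : Fin 3) (q : R0), pderiv i ((if j = e then -1 else 1 : R0) * q) =
      (if j = e then -1 else 1 : R0) * pderiv i q := by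
    intro i j q
    split_ifs
    · simp
    · simp
  rw [hc, h 1, hc, hc, h 0, map_mul, map_mul, map_mul]
  have hcc : ∀ q : R0, constantCoeff (neg1 e q) = constantCoeff q := by
    intro q
    have : (constantCoeff : R0 →+* ℂ).comp (neg1 e : R0 →ₐ[ℂ] R0).toRingHom = constantCoeff := by
      refine MvPolynomial.ringHom_ext ?_ ?_
      · intro a; simp [neg1]
      · intro i
        by_cases hi : i = e <;> simp [neg1, hi]
    exact congrArg (fun f => f q) this
  rw [hcc]
  fin_cases e <;> simp

end Pool.Agent.R803.PG
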