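import Mathlib
import Pool.Agent.H53R3.Slp
import Pool.Agent.H53R3.RatDer
import Pool.Agent.H515R2.MMR.Rank

/-!
# Permutation invariant polynomials of matrix entries and homomorphism polynomials
-/

namespace Pool.Agent.R803.PG

open MvPolynomial Pool.Agent.H53R3

/-- Labelled directed edges on the vertex set `V`. The edge `(i, a, b)` also stands for the entry
in row `a` and column `b` of the `i`-th matrix. -/
abbrev Ed (m : ℕ) (V : Type*) := Fin m × V × V

/-- The image of an edge. -/
def edMap {m : ℕ} {V W : Type*} (φ : V → W) (e : Ed m V) : Ed m W := (e.1, φ e.2.1, φ e.2.2)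

/-- Invariance of a polynomial in the entries of `m` matrices under simultaneous permutations of
the rows and columns. -/
def Invariant {m n : ℕ} (f : MvPolynomial (Ed m (Fin n)) ℂ) : Prop :=
  ∀ σ : Equiv.Perm (Fin n), rename (edMap σ) f = f

/-- A pattern: a finite directed multigraph with the vertices `0, …, s - 1`, whose edges carry
labels `i < m`; the edge `e` has the multiplicity `h e`. -/
abbrev Pat (m : ℕ) := Σ s : ℕ, (Ed m (Fin s) →₀ ℕ)

/-- The homomorphism polynomial: the sum over all maps `φ` of the vertices of the pattern to the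
indices `0, …, n - 1` of the product of the entries `A_i(φ a, φ b)` over the edges `(i, a, b)`. -/
noncomputable def homP {m : ℕ} (n : ℕ) (H : Pat m) : MvPolynomial (Ed m (Fin n)) ℂ :=
  ∑ φ : Fin H.1 → Fin n, monomial (H.2.mapDomain (edMap φ)) 1

/-- The underlying simple graph: loops, directions, labels and multiplicities are ignored. -/
def graph {m : ℕ} {V : Type*} (h : Ed m V →₀ ℕ) : SimpleGraph V where
  Adj u v := u ≠ v ∧ ∃ i, h (i, u, v) ≠ 0 ∨ h (i, v, u) ≠ 0
  symm := ⟨fun _ _ hu => ⟨hu.1.symm, hu.2.imp fun _ hi => hi.symm⟩⟩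
  loopless := ⟨fun _ hu => hu.1 rfl⟩

/-- Every vertex is the end of an edge. -/
def Good {m : ℕ} {V : Type*} (h : Ed m V →₀ ℕ) : Prop :=
  ∀ v, ∃ e ∈ h.support, e.2.1 = v ∨ e.2.2 = v

/-- Number of edges, with multiplicities. -/
def size {m : ℕ} {V : Type*} (h : Ed m V →₀ ℕ) : ℕ := h.sum fun _ k => k

/-- Isomorphic patterns. -/
def Iso {m : ℕ} (H H' : Pat m) : Prop :=
  ∃ e : Fin H.1 ≃ Fin H'.1, H.2.mapDomain (edMap e) = H'.2

/-- The number of the variable `(i, a, b)`. -/
def enc {m n : ℕ} (e : Ed m (Fin n)) : Fin (m * (n * n)) :=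
  finProdFinEquiv (e.1, finProdFinEquiv (e.2.1, e.2.2))

/-- A polynomial in the entries of `m` generic `n × n` matrices, as a rational function. -/
noncomputable def out {m n : ℕ} (f : MvPolynomial (Ed m (Fin n)) ℂ) : RF (m * (n * n)) :=
  algebraMap (Pl (m * (n * n))) (RF (m * (n * n))) (rename enc f)

/-- The least number of multiplications and divisions in a program which computes the value of `f`
at generic matrices (linear combinations are free). -/
noncomputable def cost {m n : ℕ} (f : MvPolynomial (Ed m (Fin n)) ℂ) : ℕ :=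
  sInf {L | SLPComputes (xv (m := m * (n * n))) L {out f}}

end Pool.Agent.R803.PG
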