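import Pool.Agent.R803.PG.Gadget

/-!
# Expansion of homomorphism polynomials at the block matrices
-/

namespace Pool.Agent.R803.PG

set_option linter.unusedSectionVars false
set_option linter.unusedSimpArgs false

open MvPolynomial Pool.Agent.R803.MM

variable {m : ℕ} {s N : ℕ} {h₀ : Ed m (Fin s) →₀ ℕ} (c : Cyc h₀)

/-- The sum over the positions inside the blocks. -/
noncomputable def SS (H : Pat m) (p : Fin H.1 → Fin s) (X : Fin 3 → Matrix (Fin N) (Fin N) R0) :
    R0 :=
  ∑ ξ : Fin H.1 → Fin N × Bool, H.2.prod fun e k => qq c X (edMap p e) (ξ e.2.1) (ξ e.2.2) ^ k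

variable {n r : ℕ} (ε : Fin n ≃ (Fin s × (Fin N × Bool)) ⊕ Fin r)

lemma aeval_homP (Y : Ed m (Fin n) → R0) (H : Pat m) :
    aeval Y (homP n H) = ∑ φ : Fin H.1 → Fin n, H.2.prod fun e k => Y (edMap φ e) ^ k := by
  unfold homP
  rw [map_sum]
  refine Finset.sum_congr rfl fun φ _ => ?_
  rw [aeval_monomial, map_one, one_mul, Finsupp.prod_mapDomain_index (by simp)
    (by intro a k l; exact pow_add _ _ _)]

theorem aeval_big_homP (t : Ed m (Fin s) → ℂ) (X : Fin 3 → Matrix (Fin N) (Fin N) R0)
    {H : Pat m} (hH : Good H.2) :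
    aeval (big c ε t X) (homP n H) =
      ∑ p : Fin H.1 → Fin s, C (H.2.prod fun e k => t (edMap p e) ^ k) * SS c H p X := by
  classical
  rw [aeval_homP]
  have h1 : ∑ φ : Fin H.1 → Fin n, (H.2.prod fun e k => big c ε t X (edMap φ e) ^ k) =
      ∑ z : (Fin H.1 → Fin s) × (Fin H.1 → Fin N × Bool),
        H.2.prod fun e k => big c ε t X
          (edMap (fun v => ε.symm (Sum.inl (z.1 v, z.2 v))) e) ^ k := by
    symm
    refine Finset.sum_of_injOn
      (fun z : (Fin H.1 → Fin s) × (Fin H.1 → Fin N × Bool) =>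
        fun v => ε.symm (Sum.inl (z.1 v, z.2 v))) ?_ ?_ ?_ ?_
    · rintro ⟨p, ξ⟩ _ ⟨p', ξ'⟩ _ h
      have h' : ∀ v, p v = p' v ∧ ξ v = ξ' v := by
        intro v
        have := ε.symm.injective (congrFun h v)
        simpa using this
      simp only [Prod.mk.injEq]
      exact ⟨funext fun v => (h' v).1, funext fun v => (h' v).2⟩
    · intro z _; simp
    · intro φ _ hφ
      have h2 : ∃ v : Fin H.1, ∃ x, ε (φ v) = Sum.inr x := by
        by_contra hcon
        push Not at hcon
        apply hφ
        have h3 : ∀ v : Fin H.1, ∃ x, ε (φ v) = Sum.inl x := by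
          intro v
          rcases hv : ε (φ v) with x | x
          · exact ⟨x, rfl⟩
          · exact absurd hv (hcon v x)
        choose g hg using h3
        refine ⟨(fun v => (g v).1, fun v => (g v).2), by simp, ?_⟩
        funext v
        simp only
        rw [Equiv.symm_apply_eq, hg v]
      obtain ⟨v, x, hx⟩ := h2
      obtain ⟨e, he, hev⟩ := hH v
      rw [Finsupp.prod]
      refine Finset.prod_eq_zero he ?_
      have h4 : big c ε t X (edMap φ e) = 0 := by
        unfold big edMap
        rcases hev with h5 | h5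
        · simp only [h5, hx]
        · simp only [h5, hx]
          rcases ε (φ e.2.1) with y | y <;> rfl
      rw [h4, zero_pow (Finsupp.mem_support_iff.mp he)]
    · intro z _; rfl
  rw [h1, Fintype.sum_prod_type]
  refine Finset.sum_congr rfl fun p _ => ?_
  unfold SS
  rw [Finset.mul_sum]
  refine Finset.sum_congr rfl fun ξ _ => ?_
  unfold Finsupp.prod
  rw [map_prod, ← Finset.prod_mul_distrib]
  refine Finset.prod_congr rfl fun e _ => ?_
  have h6 : big c ε t X (edMap (fun v => ε.symm (Sum.inl (p v, ξ v))) e) =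
      C (t (edMap p e)) * qq c X (edMap p e) (ξ e.2.1) (ξ e.2.2) := by
    have := big_inl c ε t X e.1 (p e.2.1, ξ e.2.1) (p e.2.2, ξ e.2.2)
    exact this
  dsimp only
  rw [h6, mul_pow, map_pow]

end Pool.Agent.R803.PG
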