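import Pool.Agent.R803.PG.Expand

/-!
# Acyclic patterns do not contribute to the cubic form
-/

namespace Pool.Agent.R803.PG

set_option linter.unusedSectionVars false
set_option linter.unusedSimpArgs false

open MvPolynomial Pool.Agent.R803.MM

/-- In a forest every set of edges is the set of the edges which change a two-colouring. -/
lemma exists_coloring {V : Type*} [DecidableEq V] {G : SimpleGraph V} (hG : G.IsAcyclic)
    (M : Finset (Sym2 V)) :
    ∃ τ : V → Bool, ∀ u v, G.Adj u v → (xor (τ u) (τ v) = decide (s(u, v) ∈ M)) := by
  classical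
  induction M using Finset.induction_on with
  | empty => exact ⟨fun _ => false, by simp⟩
  | insert e M he ih =>
    obtain ⟨τ, hτ⟩ := ih
    by_cases hee : e ∈ G.edgeSet
    · induction e using Sym2.ind with
      | _ a b =>
        have hbr := (SimpleGraph.isAcyclic_iff_forall_isBridge.mp hG) hee
        rw [SimpleGraph.isBridge_iff] at hbr
        refine ⟨fun v => xor (τ v) (decide ((G.deleteEdges {s(a, b)}).Reachable a v)), ?_⟩
        intro u v huv
        have h0 := hτ u v huv
        by_cases hx : s(u, v) = s(a, b)
        · have hR : decide ((G.deleteEdges {s(a, b)}).Reachable a u) =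
              !decide ((G.deleteEdges {s(a, b)}).Reachable a v) := by
            rcases Sym2.eq_iff.mp hx with ⟨rfl, rfl⟩ | ⟨rfl, rfl⟩
            · simp [hbr, SimpleGraph.Reachable.refl]
            · simp [hbr, SimpleGraph.Reachable.refl]
          have h2 : decide (s(u, v) ∈ M) = false := by
            rw [hx]; simpa using he
          have h3 : decide (s(u, v) ∈ insert s(a, b) M) = true := by
            rw [hx]; simp
          rw [h3]
          rw [h2] at h0
          simp only [hR]
          generalize decide ((G.deleteEdges {s(a, b)}).Reachable a v) = x at *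
          generalize τ u = y at *
          generalize τ v = z at *
          revert h0
          cases x <;> cases y <;> cases z <;> simp
        · have hadj : (G.deleteEdges {s(a, b)}).Adj u v := by
            rw [SimpleGraph.deleteEdges_adj]
            exact ⟨huv, by simpa using hx⟩
          have hR : decide ((G.deleteEdges {s(a, b)}).Reachable a u) =
              decide ((G.deleteEdges {s(a, b)}).Reachable a v) := by
            rw [decide_eq_decide]
            exact ⟨fun h => h.trans hadj.reachable, fun h => h.trans hadj.symm.reachable⟩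
          have h3 : decide (s(u, v) ∈ insert s(a, b) M) = decide (s(u, v) ∈ M) := by
            rw [decide_eq_decide, Finset.mem_insert]
            tauto
          rw [h3, ← h0]
          simp only [hR]
          generalize decide ((G.deleteEdges {s(a, b)}).Reachable a v) = x
          generalize τ u = y
          generalize τ v = z
          cases x <;> cases y <;> cases z <;> rfl
    · refine ⟨τ, fun u v huv => ?_⟩
      rw [hτ u v huv, decide_eq_decide, Finset.mem_insert]
      constructor
      · exact fun h => Or.inr h
      · rintro (h | h)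
        · exact absurd (h ▸ (SimpleGraph.mem_edgeSet G).mpr huv) hee
        · exact h

variable {m : ℕ} {s N : ℕ} {h₀ : Ed m (Fin s) →₀ ℕ} (c : Cyc h₀)

/-- **Acyclic patterns do not contribute.** -/
theorem lam_SS_acyclic {H : Pat m} (hH : (graph H.2).IsAcyclic) (p : Fin H.1 → Fin s)
    (z : Fin N) : lam (SS c H p (tst z z z z z z)) = 0 := by
  classical
  -- the edges over the first edge
  set M : Finset (Sym2 (Fin H.1)) :=
    (H.2.support.filter fun e => edMap p e = c.E0).image fun e => s(e.2.1, e.2.2) with hM
  obtain ⟨τ, hτ⟩ := exists_coloring hH M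
  -- the involution
  let T : (Fin H.1 → Fin N × Bool) → (Fin H.1 → Fin N × Bool) :=
    fun ξ v => ((ξ v).1, xor (ξ v).2 (τ v))
  have hT : Function.Involutive T := by
    intro ξ
    funext v
    simp [T]
  have hMem : ∀ e ∈ H.2.support, e.2.1 ≠ e.2.2 →
      xor (τ e.2.1) (τ e.2.2) = decide (s(e.2.1, e.2.2) ∈ M) := by
    intro e he hne
    exact hτ _ _ ⟨hne, e.1, Or.inl (Finsupp.mem_support_iff.mp he)⟩
  have hMp : ∀ u v : Fin H.1, s(u, v) ∈ M → (p u = c.c0 ∧ p v = c.c1) ∨ (p u = c.c1 ∧ p v = c.c0) := by
    intro u v huv
    rw [hM, Finset.mem_image] at huv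
    obtain ⟨e, he, hee⟩ := huv
    rw [Finset.mem_filter] at he
    have h1 : p e.2.1 = c.E0.2.1 := congrArg (fun x => x.2.1) he.2
    have h2 : p e.2.2 = c.E0.2.2 := congrArg (fun x => x.2.2) he.2
    have hj := c.j0
    rcases Sym2.eq_iff.mp hee with ⟨rfl, rfl⟩ | ⟨rfl, rfl⟩
    · rw [h1, h2]; tauto
    · rw [h1, h2]; tauto
  have hxor : ∀ a b x y : Bool, sg (xor a x) * sg (xor b y) = sg (xor x y) * (sg a * sg b) := by
    intro a b x y
    cases a <;> cases b <;> cases x <;> cases y <;> simp [sg]
  have key : ∀ (ξ : Fin H.1 → Fin N × Bool) (e : Ed m (Fin H.1)), e ∈ H.2.support →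
      qq c (tst z z z z z z) (edMap p e) (T ξ e.2.1) (T ξ e.2.2) =
        neg1 0 (qq c (tst z z z z z z) (edMap p e) (ξ e.2.1) (ξ e.2.2)) := by
    intro ξ e he
    rw [← qq_map]
    have hne : ∀ a b, tst z z z z z z 0 a b = -((fun k => (tst z z z z z z k).map (neg1 0)) 0 a b) := by
      intro a b
      by_cases h1 : z = a ∧ z = b
      · obtain ⟨rfl, rfl⟩ := h1
        simp [tst, Matrix.single, neg1]
      · simp [tst, Matrix.single, h1, neg1]
    have hne1 : ∀ a b, tst z z z z z z 1 a b = ((fun k => (tst z z z z z z k).map (neg1 0)) 1 a b) := by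
      intro a b
      by_cases h1 : z = a ∧ z = b
      · obtain ⟨rfl, rfl⟩ := h1
        simp [tst, Matrix.single, neg1]
      · simp [tst, Matrix.single, h1, neg1]
    have hne2 : ∀ a b, tst z z z z z z 2 a b = ((fun k => (tst z z z z z z k).map (neg1 0)) 2 a b) := by
      intro a b
      by_cases h1 : z = a ∧ z = b
      · obtain ⟨rfl, rfl⟩ := h1
        simp [tst, Matrix.single, neg1]
      · simp [tst, Matrix.single, h1, neg1]
    unfold qq
    by_cases hin : ((edMap p e).2.1 ≠ c.c1 ∧ (edMap p e).2.1 ≠ c.c2) ∧
        ((edMap p e).2.2 ≠ c.c1 ∧ (edMap p e).2.2 ≠ c.c2)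
    · rw [if_pos hin, if_pos hin]
      have h5 : τ e.2.1 = τ e.2.2 := by
        by_cases h6 : e.2.1 = e.2.2
        · rw [h6]
        · have h7 := hMem e he h6
          have h8 : s(e.2.1, e.2.2) ∉ M := by
            intro h9
            rcases hMp _ _ h9 with h10 | h10
            · exact hin.2.1 h10.2
            · exact hin.1.1 h10.1
          rw [decide_eq_false h8] at h7
          generalize τ e.2.1 = x at *
          generalize τ e.2.2 = y at *
          revert h7
          cases x <;> cases y <;> simp
      have h11 : (T ξ e.2.1 = T ξ e.2.2) ↔ (ξ e.2.1 = ξ e.2.2) := by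
        simp only [T, h5, Prod.mk.injEq, Prod.ext_iff]
        constructor
        · rintro ⟨a, b⟩
          refine ⟨a, ?_⟩
          revert b
          generalize τ e.2.2 = x
          generalize (ξ e.2.1).2 = y
          generalize (ξ e.2.2).2 = w
          cases x <;> cases y <;> cases w <;> simp
        · rintro ⟨a, b⟩
          exact ⟨a, by rw [b]⟩
      simp only [h11]
    · rw [if_neg hin, if_neg hin]
      congr 1
      · congr 1
        · congr 1
          by_cases h : edMap p e = c.E0
          · rw [if_pos h, if_pos h]
            have hloop : e.2.1 ≠ e.2.2 := by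
              intro h6
              have h1 : p e.2.1 = c.E0.2.1 := congrArg (fun x => x.2.1) h
              have h2 : p e.2.2 = c.E0.2.2 := congrArg (fun x => x.2.2) h
              rw [h6] at h1
              have h3 : c.E0.2.1 = c.E0.2.2 := h1.symm.trans h2
              rcases c.j0 with ⟨a1, a2⟩ | ⟨a1, a2⟩
              · rw [a1, a2] at h3; exact c.h01 h3
              · rw [a1, a2] at h3; exact c.h01 h3.symm
            have h7 := hMem e he hloop
            have h8 : s(e.2.1, e.2.2) ∈ M := by
              rw [hM, Finset.mem_image]
              exact ⟨e, Finset.mem_filter.mpr ⟨he, h⟩, rfl⟩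
            rw [decide_eq_true h8] at h7
            simp only [T, hxor, h7]
            have hsg : sg true = -1 := by simp [sg]
            split_ifs
            · rw [hne, hsg, map_mul, map_neg, map_one]; ring
            · rw [hne, hsg, map_mul, map_neg, map_one]; ring
          · rw [if_neg h, if_neg h]
        · by_cases h : edMap p e = c.E1
          · rw [if_pos h, if_pos h]
            have h1 : p e.2.1 = c.E1.2.1 := congrArg (fun x => x.2.1) h
            have h2 : p e.2.2 = c.E1.2.2 := congrArg (fun x => x.2.2) h
            have hloop : e.2.1 ≠ e.2.2 := by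
              intro h6
              rw [h6] at h1
              have h3 : c.E1.2.1 = c.E1.2.2 := h1.symm.trans h2
              rcases c.j1 with ⟨a1, a2⟩ | ⟨a1, a2⟩
              · rw [a1, a2] at h3; exact c.h12 h3
              · rw [a1, a2] at h3; exact c.h12 h3.symm
            have h7 := hMem e he hloop
            have h8 : s(e.2.1, e.2.2) ∉ M := by
              intro h9
              have h01 := c.h01
              have h02 := c.h02
              have h12 := c.h12
              rcases hMp _ _ h9 with ⟨b1, b2⟩ | ⟨b1, b2⟩ <;>
                rcases c.j1 with ⟨a1, a2⟩ | ⟨a1, a2⟩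
              · exact h01 (by rw [← b1, h1, a1])
              · exact h02 (by rw [← b1, h1, a1])
              · exact h02 (by rw [← b2, h2, a2])
              · exact h01 (by rw [← b2, h2, a2])
            rw [decide_eq_false h8] at h7
            simp only [T, hxor, h7]
            split_ifs
            · rw [hne1]; simp [sg]
            · rw [hne1]; simp [sg]
          · rw [if_neg h, if_neg h]
      · by_cases h : edMap p e = c.E2
        · rw [if_pos h, if_pos h]
          have h1 : p e.2.1 = c.E2.2.1 := congrArg (fun x => x.2.1) h
          have h2 : p e.2.2 = c.E2.2.2 := congrArg (fun x => x.2.2) h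
          have hloop : e.2.1 ≠ e.2.2 := by
            intro h6
            rw [h6] at h1
            have h3 : c.E2.2.1 = c.E2.2.2 := h1.symm.trans h2
            rcases c.j2 with ⟨a1, a2⟩ | ⟨a1, a2⟩
            · rw [a1, a2] at h3; exact c.h32 h3.symm
            · rw [a1, a2] at h3; exact c.h32 h3
          have h7 := hMem e he hloop
          have h8 : s(e.2.1, e.2.2) ∉ M := by
            intro h9
            have h01 := c.h01
            have h02 := c.h02
            have h12 := c.h12
            rcases hMp _ _ h9 with ⟨b1, b2⟩ | ⟨b1, b2⟩ <;>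
              rcases c.j2 with ⟨a1, a2⟩ | ⟨a1, a2⟩
            · exact h02 (by rw [← b1, h1, a1])
            · exact h12 (by rw [← b2, h2, a2])
            · exact h12 (by rw [← b1, h1, a1])
            · exact h02 (by rw [← b2, h2, a2])
          rw [decide_eq_false h8] at h7
          simp only [T, hxor, h7]
          split_ifs
          · rw [hne2]; simp [sg]
          · rw [hne2]; simp [sg]
        · rw [if_neg h, if_neg h]
  have h1 : neg1 0 (SS c H p (tst z z z z z z)) = SS c H p (tst z z z z z z) := by
    have h2 : ∀ ξ : Fin H.1 → Fin N × Bool, (H.2.prod fun e k =>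
        qq c (tst z z z z z z) (edMap p e) (T ξ e.2.1) (T ξ e.2.2) ^ k) =
        neg1 0 (H.2.prod fun e k =>
          qq c (tst z z z z z z) (edMap p e) (ξ e.2.1) (ξ e.2.2) ^ k) := by
      intro ξ
      unfold Finsupp.prod
      rw [map_prod]
      refine Finset.prod_congr rfl fun e he => ?_
      rw [map_pow, ← key _ e he]
    unfold SS
    rw [map_sum, ← Finset.sum_congr rfl fun ξ _ => h2 ξ]
    exact Equiv.sum_comp hT.toPerm (fun ξ : Fin H.1 → Fin N × Bool => H.2.prod fun e k =>
        qq c (tst z z z z z z) (edMap p e) (ξ e.2.1) (ξ e.2.2) ^ k)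
  have h2 := congrArg lam h1
  rw [lam_neg1] at h2
  have h5 : (2 : ℂ) * lam (SS c H p (tst z z z z z z)) = 0 := by
    linear_combination (-1 : ℂ) * h2
  simpa using h5

end Pool.Agent.R803.PG
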