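import Pool.Agent.R803.MM.Upper2

/-!
# Programs for forests
-/

namespace Pool.Agent.R803.PG

set_option linter.unusedSectionVars false
set_option linter.unusedSimpArgs false

open MvPolynomial Pool.Agent.H53R3 Pool.Agent.R803.MM

/-- A finite forest has a vertex with at most one neighbour. -/
lemma exists_leaf {V : Type} [Fintype V] [Nonempty V] {G : SimpleGraph V} (h : G.IsAcyclic) :
    ∃ v, ∀ u w, G.Adj v u → G.Adj v w → u = w := by
  classical
  let v₀ : V := Classical.arbitrary V
  let c := G.connectedComponentMk v₀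
  have hT := h.isTree_connectedComponent c
  rcases subsingleton_or_nontrivial c with hs | hn
  · refine ⟨v₀, fun u w hu _ => ?_⟩
    have h1 : u ∈ c := (c.mem_supp_congr_adj hu).mp rfl
    have h2 : v₀ ∈ c := rfl
    have h3 := congrArg Subtype.val (Subsingleton.elim (⟨u, h1⟩ : c) ⟨v₀, h2⟩)
    simp only at h3
    rw [h3] at hu
    exact absurd rfl hu.ne
  · obtain ⟨v, hv⟩ := hT.exists_vert_degree_one_of_nontrivial
    rw [SimpleGraph.degree_eq_one_iff_existsUnique_adj] at hv
    obtain ⟨x, _, hx2⟩ := hv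
    refine ⟨v.1, fun u w hu hw => ?_⟩
    have h1 : u ∈ c := (c.mem_supp_congr_adj hu).mp v.2
    have h2 : w ∈ c := (c.mem_supp_congr_adj hw).mp v.2
    have e1 := hx2 ⟨u, h1⟩ ((c.toSimpleGraph_adj v.2 h1).mpr hu)
    have e2 := hx2 ⟨w, h2⟩ ((c.toSimpleGraph_adj v.2 h2).mpr hw)
    have e3 := e1.trans e2.symm
    exact congrArg Subtype.val e3

section

variable {K : Type*} [Field K] [Algebra ℂ K] {M : ℕ} {x : Fin M → K}

/-- The sum over all maps of the vertices of a product over vertices and pairs of vertices. -/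
noncomputable def wsum {V : Type} [Fintype V] [DecidableEq V] (n : ℕ)
    (Mx : V → V → Fin n → Fin n → K) (y : V → Fin n → K) : K :=
  ∑ φ : V → Fin n, (∏ v, y v (φ v)) * ∏ u, ∏ v, Mx u v (φ u) (φ v)

/-- Splitting off one vertex. -/
lemma wsum_split {V : Type} [Fintype V] [DecidableEq V] {n : ℕ}
    (Mx : V → V → Fin n → Fin n → K) (y : V → Fin n → K) (v : V) (hvv : ∀ a b, Mx v v a b = 1) :
    wsum n Mx y = ∑ a : Fin n, ∑ φ : {w // ¬ w = v} → Fin n,
      y v a * (∏ w : {w // ¬ w = v}, y w (φ w)) *
        ((∏ w : {w // ¬ w = v}, Mx v w a (φ w)) * (∏ u : {w // ¬ w = v}, Mx u v (φ u) a) *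
          ∏ u : {w // ¬ w = v}, ∏ w : {w // ¬ w = v}, Mx u w (φ u) (φ w)) := by
  unfold wsum
  rw [← Equiv.sum_comp (Equiv.funSplitAt v (Fin n)).symm, Fintype.sum_prod_type]
  refine Finset.sum_congr rfl fun a _ => Finset.sum_congr rfl fun φ _ => ?_
  set ψ : V → Fin n := (Equiv.funSplitAt v (Fin n)).symm (a, φ) with hψ
  have h1 : ψ v = a := by simp [hψ]
  have h2 : ∀ w : {w // ¬ w = v}, ψ w = φ w := by
    intro w
    have := w.2
    simp [hψ, Equiv.funSplitAt, Equiv.piSplitAt, this]
  have split : ∀ F : V → K, ∏ u, F u = F v * ∏ u : {w // ¬ w = v}, F u := by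
    intro F
    rw [← Fintype.prod_subtype_mul_prod_subtype (fun w => w = v) F]
    congr 1
    have hsub : ∀ inst : Fintype {w // w = v},
        @Finset.prod {w // w = v} K _ (@Finset.univ _ inst) (fun i => F i) = F v := by
      intro inst
      exact Fintype.prod_subsingleton (fun i : {w // w = v} => F i) ⟨v, rfl⟩
    exact hsub _
  rw [split, h1, split (fun u => ∏ w, Mx u w (ψ u) (ψ w)),
    split (fun w => Mx v w (ψ v) (ψ w)), hvv, one_mul, h1]
  have h3 : ∀ u : {w // ¬ w = v}, (∏ w, Mx u w (ψ u) (ψ w)) =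
      Mx u v (φ u) a * ∏ w : {w // ¬ w = v}, Mx u w (φ u) (φ w) := by
    intro u
    rw [split, h1, h2]
    congr 1
    refine Finset.prod_congr rfl fun w _ => ?_
    rw [h2]
  rw [Finset.prod_congr rfl fun u _ => h3 u, Finset.prod_mul_distrib]
  have h4 : (∏ w : {w // ¬ w = v}, y w (ψ w)) = ∏ w : {w // ¬ w = v}, y w (φ w) :=
    Finset.prod_congr rfl fun w _ => by rw [h2]
  have h5 : (∏ w : {w // ¬ w = v}, Mx v w a (ψ w)) = ∏ w : {w // ¬ w = v}, Mx v w a (φ w) :=
    Finset.prod_congr rfl fun w _ => by rw [h2]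
  rw [h4, h5]
  ring

/-- One elimination step. -/
lemma slp_elim {n L : ℕ} {S : Set K} (h : SLPComputes x L S) (hn : 1 ≤ n)
    (A B : Fin n → Fin n → K) (y z : Fin n → K) (hA : ∀ a b, A a b ∈ sp x S)
    (hB : ∀ a b, B a b ∈ sp x S) (hy : ∀ a, y a ∈ sp x S) (hz : ∀ a, z a ∈ sp x S) :
    SLPComputes x (L + 3 * n ^ 2)
      (S ∪ {w | ∃ b, w = z b * ∑ a, y a * (A a b * B b a)}) := by
  classical
  have h1 := slp_tasks (x := x) (Finset.univ : Finset (Fin n × Fin n))
    (fun t => {A t.1 t.2 * B t.2 t.1}) 1 h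
    (fun t _ S' L' hS' h' => slp_step h' (sp_mono hS' (hA _ _)) (sp_mono hS' (hB _ _)))
  set S1 := S ∪ ⋃ t ∈ (Finset.univ : Finset (Fin n × Fin n)), {A t.1 t.2 * B t.2 t.1} with hS1
  have m1 : ∀ a b, A a b * B b a ∈ sp x S1 := by
    intro a b
    refine mem_sp (Or.inr ?_)
    simp only [Set.mem_iUnion]
    exact ⟨(a, b), Finset.mem_univ _, rfl⟩
  have h2 := slp_tasks (x := x) (Finset.univ : Finset (Fin n × Fin n))
    (fun t => {y t.1 * (A t.1 t.2 * B t.2 t.1)}) 1 h1
    (fun t _ S' L' hS' h' => slp_step h' (sp_mono hS' (sp_mono Set.subset_union_left (hy _)))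
      (sp_mono hS' (m1 _ _)))
  set S2 := S1 ∪ ⋃ t ∈ (Finset.univ : Finset (Fin n × Fin n)),
    {y t.1 * (A t.1 t.2 * B t.2 t.1)} with hS2
  have m2 : ∀ b, ∑ a, y a * (A a b * B b a) ∈ sp x S2 := by
    intro b
    refine Submodule.sum_mem _ fun a _ => mem_sp (Or.inr ?_)
    simp only [Set.mem_iUnion]
    exact ⟨(a, b), Finset.mem_univ _, rfl⟩
  have h3 := slp_tasks (x := x) (Finset.univ : Finset (Fin n))
    (fun b => {z b * ∑ a, y a * (A a b * B b a)}) 1 h2
    (fun t _ S' L' hS' h' => slp_step h' (sp_mono hS' (sp_mono Set.subset_union_left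
      (sp_mono Set.subset_union_left (hz _)))) (sp_mono hS' (m2 _)))
  simp only [Finset.card_univ, Fintype.card_prod, Fintype.card_fin, mul_one] at h3
  refine slp_mono (slp_span h3 ?_) ?_
  · rintro w (hw | ⟨b, rfl⟩)
    · exact mem_sp (Or.inl (Or.inl (Or.inl hw)))
    · refine mem_sp (Or.inr ?_)
      simp only [Set.mem_iUnion]
      exact ⟨b, Finset.mem_univ _, rfl⟩
  · nlinarith

/-- **Programs for forests.** -/
theorem slp_forest {n : ℕ} (hn : 1 ≤ n) : ∀ (k : ℕ) (V : Type) [Fintype V] [DecidableEq V],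
    Fintype.card V = k →
    ∀ G : SimpleGraph V, G.IsAcyclic → ∀ (Mx : V → V → Fin n → Fin n → K) (y : V → Fin n → K)
      (L : ℕ) (S : Set K), (∀ u v, ¬ G.Adj u v → ∀ a b, Mx u v a b = 1) →
      SLPComputes x L S → (∀ u v a b, Mx u v a b ∈ sp x S) →
      (∀ v a, y v a ∈ sp x S) → SLPComputes x (L + k * (3 * n ^ 2)) (S ∪ {wsum n Mx y}) := by
  intro k
  induction k with
  | zero =>
    intro V _ _ hV G _ Mx y L S _ h _ _
    have : IsEmpty V := Fintype.card_eq_zero_iff.mp hV
    rw [zero_mul, add_zero]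
    refine slp_span h ?_
    rintro z (hz | hz)
    · exact mem_sp hz
    · rw [Set.mem_singleton_iff.mp hz]
      have : wsum n Mx y = 1 := by
        unfold wsum
        rw [Fintype.sum_unique]
        simp
      rw [this]
      exact one_mem_sp S
  | succ k ih =>
    intro V _ _ hV G hG Mx y L S hone h hM hy
    have : Nonempty V := Fintype.card_pos_iff.mp (by omega)
    obtain ⟨v, hv⟩ := exists_leaf hG
    have hcard : Fintype.card {w : V // ¬ w = v} = k := by
      rw [Fintype.card_subtype_compl, Fintype.card_subtype_eq, hV]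
      omega
    set G' : SimpleGraph {w : V // ¬ w = v} := G.comap Subtype.val with hG'
    have hG'a : G'.IsAcyclic := hG.comap ⟨Subtype.val, fun h => h⟩ Subtype.val_injective
    have hone' : ∀ u w : {w : V // ¬ w = v}, ¬ G'.Adj u w → ∀ a b, Mx u w a b = 1 :=
      fun u w huw => hone _ _ huw
    have hvv : ∀ a b, Mx v v a b = 1 := hone v v (G.loopless.irrefl v)
    by_cases hiso : ∃ u, G.Adj v u
    · obtain ⟨u, hu⟩ := hiso
      have huv : ¬ u = v := fun h => hu.ne h.symm
      -- the new weights
      set z : Fin n → K := fun b => y u b * ∑ a, y v a * (Mx v u a b * Mx u v b a) with hz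
      set y' : {w : V // ¬ w = v} → Fin n → K := fun w => if w = ⟨u, huv⟩ then z else y w
        with hy'
      have h1 := slp_elim h hn (Mx v u) (Mx u v) (y v) (y u) (hM v u) (hM u v) (hy v) (hy u)
      have h2 := ih {w : V // ¬ w = v} hcard G' hG'a (fun a b => Mx a b) y' _ _ hone' h1
        (fun a b c d => sp_mono Set.subset_union_left (hM _ _ _ _)) ?_
      · have heq : wsum n Mx y =
            wsum n (fun a b : {w : V // ¬ w = v} => Mx a b) y' := by
          rw [wsum_split Mx y v hvv, Finset.sum_comm]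
          unfold wsum
          refine Finset.sum_congr rfl fun φ _ => ?_
          have e1 : ∀ a : Fin n, (∏ w : {w : V // ¬ w = v}, Mx v w a (φ w)) =
              Mx v u a (φ ⟨u, huv⟩) := by
            intro a
            rw [Finset.prod_eq_single (⟨u, huv⟩ : {w : V // ¬ w = v})]
            · intro w _ hw
              refine hone _ _ ?_ _ _
              intro hvw
              exact hw (Subtype.ext (hv _ _ hvw hu))
            · intro hh; exact absurd (Finset.mem_univ _) hh
          have e2 : ∀ a : Fin n, (∏ w : {w : V // ¬ w = v}, Mx w v (φ w) a) =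
              Mx u v (φ ⟨u, huv⟩) a := by
            intro a
            rw [Finset.prod_eq_single (⟨u, huv⟩ : {w : V // ¬ w = v})]
            · intro w _ hw
              refine hone _ _ ?_ _ _
              intro hvw
              exact hw (Subtype.ext (hv _ _ hvw.symm hu))
            · intro hh; exact absurd (Finset.mem_univ _) hh
          have e3 : (∏ w : {w : V // ¬ w = v}, y' w (φ w)) =
              (∏ w : {w : V // ¬ w = v}, y w (φ w)) *
              ∑ a, y v a * (Mx v u a (φ ⟨u, huv⟩) * Mx u v (φ ⟨u, huv⟩) a) := by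
            rw [← Finset.mul_prod_erase _ _ (Finset.mem_univ (⟨u, huv⟩ : {w : V // ¬ w = v})),
              ← Finset.mul_prod_erase _ (fun w : {w : V // ¬ w = v} => y w (φ w))
                (Finset.mem_univ (⟨u, huv⟩ : {w : V // ¬ w = v}))]
            have e4 : ∏ w ∈ Finset.univ.erase (⟨u, huv⟩ : {w : V // ¬ w = v}), y' w (φ w) =
                ∏ w ∈ Finset.univ.erase (⟨u, huv⟩ : {w : V // ¬ w = v}), y w (φ w) := by
              refine Finset.prod_congr rfl fun w hw => ?_
              rw [hy']
              simp only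
              rw [if_neg (Finset.ne_of_mem_erase hw)]
            rw [e4, hy']
            simp only [if_true, hz]
            ring
          rw [e3, Finset.sum_congr rfl fun a _ => by rw [e1 a, e2 a]]
          rw [Finset.mul_sum, Finset.sum_mul]
          refine Finset.sum_congr rfl fun a _ => ?_
          ring
        rw [heq]
        refine slp_mono (slp_span h2 ?_) ?_
        · rintro w (hw | hw)
          · exact mem_sp (Or.inl (Or.inl hw))
          · exact mem_sp (Or.inr hw)
        · rw [add_mul, one_mul]; omega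
      · intro w a
        rw [hy']
        simp only
        split_ifs
        · exact mem_sp (Or.inr ⟨a, rfl⟩)
        · exact sp_mono Set.subset_union_left (hy _ _)
    · push Not at hiso
      have h2 := ih {w : V // ¬ w = v} hcard G' hG'a (fun a b => Mx a b) (fun w => y w) _ _
        hone' h (fun a b c d => hM _ _ _ _) (fun w a => hy _ _)
      have heq : wsum n Mx y = (∑ a, y v a) *
          wsum n (fun a b : {w : V // ¬ w = v} => Mx a b) (fun w => y w) := by
        rw [wsum_split Mx y v hvv, Finset.sum_mul]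
        refine Finset.sum_congr rfl fun a _ => ?_
        unfold wsum
        rw [Finset.mul_sum]
        refine Finset.sum_congr rfl fun φ _ => ?_
        have e1 : (∏ w : {w : V // ¬ w = v}, Mx v w a (φ w)) = 1 :=
          Finset.prod_eq_one fun w _ => hone _ _ (hiso w) _ _
        have e2 : (∏ w : {w : V // ¬ w = v}, Mx w v (φ w) a) = 1 :=
          Finset.prod_eq_one fun w _ => hone _ _ (fun hh => hiso w hh.symm) _ _
        rw [e1, e2]
        ring
      rw [heq]
      have h3 := slp_step h2 (u := ∑ a, y v a)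
        (v := wsum n (fun a b : {w : V // ¬ w = v} => Mx a b) (fun w => y w))
        (Submodule.sum_mem _ fun a _ => sp_mono Set.subset_union_left (hy v a))
        (mem_sp (Or.inr rfl))
      refine slp_mono (slp_span h3 ?_) ?_
      · rintro w (hw | hw)
        · exact mem_sp (Or.inl (Or.inl hw))
        · exact mem_sp (Or.inr hw)
      · have : 1 ≤ 3 * n ^ 2 := by
          have : 1 ≤ n ^ 2 := Nat.one_le_pow _ _ hn
          omega
        rw [add_mul, one_mul]; omega

end

end Pool.Agent.R803.PG
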