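import Pool.Agent.R803.PG.Defs

/-!
# Invariant polynomials are combinations of homomorphism polynomials
-/

namespace Pool.Agent.R803.PG

set_option linter.unusedSectionVars false
set_option linter.unusedSimpArgs false

open MvPolynomial

section sums

variable {V W : Type*} [Fintype V] [DecidableEq V] [Fintype W] [DecidableEq W]
  {E : Type*} [AddCommGroup E] [Module ℂ E]

/-- Averaging over one coordinate. -/
lemma sum_update (v : V) (G : (V → W) → E) :
    ∑ φ : V → W, ∑ b : W, G (Function.update φ v b) = Fintype.card W • ∑ φ : V → W, G φ := by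
  rw [← Fintype.sum_prod_type' (f := fun (φ : V → W) (b : W) => G (Function.update φ v b))]
  let T : (V → W) × W → (V → W) × W := fun z => (Function.update z.1 v z.2, z.1 v)
  have hT : Function.Involutive T := by
    rintro ⟨φ, b⟩
    simp [T]
  have h1 : ∑ z : (V → W) × W, G (Function.update z.1 v z.2) = ∑ z : (V → W) × W, G z.1 := by
    exact Equiv.sum_comp (hT.toPerm) (fun z : (V → W) × W => G z.1)
  rw [h1, Fintype.sum_prod_type, Finset.smul_sum]
  refine Finset.sum_congr rfl fun φ _ => ?_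
  simp

lemma sum_eq_pair {u v : V} (huv : u ≠ v) (F : (V → W) → E) :
    ∑ φ : V → W, F (φ ∘ Function.update id v u) =
      Fintype.card W • ∑ φ : V → W, (if φ u = φ v then F φ else 0) := by
  rw [← sum_update v]
  refine Finset.sum_congr rfl fun φ _ => ?_
  rw [Finset.sum_eq_single (φ u)]
  · rw [Function.update_of_ne huv, Function.update_self, if_pos rfl]
    congr 1
    funext x
    by_cases hx : x = v
    · subst hx; simp
    · simp [Function.update_of_ne hx]
  · intro b _ hb
    rw [Function.update_of_ne huv, Function.update_self, if_neg (Ne.symm hb)]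
  · simp

/-- The sum over the injective maps is a combination of sums over all maps, composed with maps of
the vertices. -/
lemma sum_inj_mem [Nonempty W] (L : Finset (V × V)) : ∀ F : (V → W) → E,
    ∑ φ : V → W, (∏ p ∈ L, (1 - if φ p.1 = φ p.2 then (1 : ℂ) else 0)) • F φ ∈
      Submodule.span ℂ {z | ∃ r : V → V, z = ∑ φ : V → W, F (φ ∘ r)} := by
  induction L using Finset.induction_on with
  | empty =>
    intro F
    simp only [Finset.prod_empty, one_smul]
    exact Submodule.subset_span ⟨id, rfl⟩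
  | insert p L hp ih =>
    intro F
    simp only [Finset.prod_insert hp]
    have h1 : ∀ φ : V → W, ((1 - if φ p.1 = φ p.2 then (1 : ℂ) else 0) *
        ∏ x ∈ L, (1 - if φ x.1 = φ x.2 then (1 : ℂ) else 0)) • F φ =
        (∏ x ∈ L, (1 - if φ x.1 = φ x.2 then (1 : ℂ) else 0)) • F φ -
        (∏ x ∈ L, (1 - if φ x.1 = φ x.2 then (1 : ℂ) else 0)) •
          (if φ p.1 = φ p.2 then F φ else 0) := by
      intro φ
      split_ifs
      · simp
      · simp
    rw [Finset.sum_congr rfl fun φ _ => h1 φ, Finset.sum_sub_distrib]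
    refine Submodule.sub_mem _ (ih F) ?_
    have h2 := ih (fun φ => if φ p.1 = φ p.2 then F φ else 0)
    refine Submodule.span_le.mpr ?_ h2
    rintro z ⟨r, rfl⟩
    simp only [Function.comp_apply]
    by_cases hr : r p.1 = r p.2
    · simp only [hr, if_true]
      exact Submodule.subset_span ⟨r, rfl⟩
    · have h3 := sum_eq_pair hr (fun φ : V → W => F (φ ∘ r))
      have hc : (Fintype.card W : ℂ) ≠ 0 := by
        exact_mod_cast Fintype.card_ne_zero
      have h4 : ∑ φ : V → W, (if φ (r p.1) = φ (r p.2) then F (φ ∘ r) else 0) =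
          (Fintype.card W : ℂ)⁻¹ •
            ∑ φ : V → W, F (φ ∘ (Function.update id (r p.2) (r p.1) ∘ r)) := by
        have h5 : ∑ φ : V → W, F (φ ∘ (Function.update id (r p.2) (r p.1) ∘ r)) =
            (Fintype.card W : ℂ) •
              ∑ φ : V → W, (if φ (r p.1) = φ (r p.2) then F (φ ∘ r) else 0) := by
          rw [Nat.cast_smul_eq_nsmul, ← h3]
          rfl
        rw [h5, smul_smul, inv_mul_cancel₀ hc, one_smul]
      rw [h4]
      exact Submodule.smul_mem _ _ (Submodule.subset_span ⟨_, rfl⟩)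

/-- Vertices outside the image of an injection only contribute a factor. -/
lemma sum_comp_injective {K : Type*} [Fintype K] [DecidableEq K] {g : K → V}
    (hg : Function.Injective g) (M : (K → W) → E) :
    ∃ c : ℕ, ∑ φ : V → W, M (φ ∘ g) = c • ∑ ψ : K → W, M ψ := by
  classical
  refine ⟨Fintype.card ({x : V // ¬ x ∈ Set.range g} → W), ?_⟩
  let e := Equiv.piEquivPiSubtypeProd (fun x : V => x ∈ Set.range g) (fun _ => W)
  have h1 : ∑ φ : V → W, M (φ ∘ g) =
      ∑ z : ({x : V // x ∈ Set.range g} → W) × ({x : V // ¬ x ∈ Set.range g} → W),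
        M (fun k => z.1 ⟨g k, ⟨k, rfl⟩⟩) := by
    rw [← Equiv.sum_comp e]
    rfl
  rw [h1, Fintype.sum_prod_type, Finset.smul_sum]
  have h2 : ∀ a : {x : V // x ∈ Set.range g} → W,
      ∑ _b : {x : V // ¬ x ∈ Set.range g} → W, M (fun k => a ⟨g k, ⟨k, rfl⟩⟩) =
      Fintype.card ({x : V // ¬ x ∈ Set.range g} → W) • M (fun k => a ⟨g k, ⟨k, rfl⟩⟩) := by
    intro a
    simp
  rw [Finset.sum_congr rfl fun a _ => h2 a, ← Finset.smul_sum, ← Finset.smul_sum]
  congr 1
  let ι : K ≃ {x : V // x ∈ Set.range g} := Equiv.ofInjective g hg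
  exact Equiv.sum_comp (Equiv.arrowCongr ι.symm (Equiv.refl W)) M

end sums

variable {m : ℕ}

lemma edMap_comp {V W U : Type*} (φ : V → W) (ψ : W → U) :
    (edMap ψ ∘ edMap φ : Ed m V → Ed m U) = edMap (ψ ∘ φ) := rfl

lemma edMap_injective {V W : Type*} {φ : V → W} (h : Function.Injective φ) :
    Function.Injective (edMap φ : Ed m V → Ed m W) := by
  rintro ⟨i, a, b⟩ ⟨i', a', b'⟩ he
  simp only [edMap, Prod.mk.injEq] at he
  rw [he.1, h he.2.1, h he.2.2]

lemma size_mapDomain {V W : Type*} (f : Ed m V → Ed m W) (h : Ed m V →₀ ℕ) :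
    size (h.mapDomain f) = size h := by
  unfold size
  rw [Finsupp.sum_mapDomain_index (by simp) (by simp)]

/-- The span of the homomorphism polynomials of patterns without isolated vertices. -/
noncomputable def HS (m n D : ℕ) : Submodule ℂ (MvPolynomial (Ed m (Fin n)) ℂ) :=
  Submodule.span ℂ {z | ∃ H : Pat m, Good H.2 ∧ size H.2 ≤ D ∧ z = homP n H}

/-- Isolated vertices can be dropped. -/
lemma hom_mem_HS {V : Type*} [Fintype V] [DecidableEq V] {n D : ℕ} (h : Ed m V →₀ ℕ)
    (hD : size h ≤ D) :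
    ∑ φ : V → Fin n, (monomial (h.mapDomain (edMap φ)) 1 : MvPolynomial (Ed m (Fin n)) ℂ) ∈
      HS m n D := by
  classical
  let U := {v : V // ∃ e ∈ h.support, e.2.1 = v ∨ e.2.2 = v}
  let ε : Fin (Fintype.card U) ≃ U := (Fintype.equivFin U).symm
  let g : Fin (Fintype.card U) → V := fun k => (ε k).1
  have hg : Function.Injective g := Subtype.val_injective.comp ε.injective
  have hrange : ∀ v, (∃ e ∈ h.support, e.2.1 = v ∨ e.2.2 = v) → ∃ k, g k = v := by
    intro v hv
    exact ⟨ε.symm ⟨v, hv⟩, by simp [g]⟩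
  have heg := edMap_injective (m := m) hg
  set h' : Ed m (Fin (Fintype.card U)) →₀ ℕ := h.comapDomain (edMap g) heg.injOn with hh'
  have hsub : ↑h.support ⊆ Set.range (edMap (m := m) g) := by
    intro e he
    obtain ⟨k₁, hk₁⟩ := hrange e.2.1 ⟨e, he, Or.inl rfl⟩
    obtain ⟨k₂, hk₂⟩ := hrange e.2.2 ⟨e, he, Or.inr rfl⟩
    exact ⟨(e.1, k₁, k₂), by simp [edMap, hk₁, hk₂]⟩
  have hmap : h'.mapDomain (edMap g) = h := Finsupp.mapDomain_comapDomain _ heg _ hsub
  have hgood : Good h' := by
    intro k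
    obtain ⟨e, he, hek⟩ := (ε k).2
    obtain ⟨e', he'⟩ := hsub he
    refine ⟨e', ?_, ?_⟩
    · rw [hh', Finsupp.mem_support_iff, Finsupp.comapDomain_apply, he']
      exact Finsupp.mem_support_iff.mp he
    · rw [← he'] at hek
      rcases hek with h1 | h1
      · exact Or.inl (hg h1)
      · exact Or.inr (hg h1)
  obtain ⟨c, hc⟩ := sum_comp_injective (W := Fin n) hg
    (fun ψ => (monomial (h'.mapDomain (edMap ψ)) 1 : MvPolynomial (Ed m (Fin n)) ℂ))
  have h1 : ∑ φ : V → Fin n, (monomial (h.mapDomain (edMap φ)) 1 :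
      MvPolynomial (Ed m (Fin n)) ℂ) = (c : ℂ) • homP n ⟨Fintype.card U, h'⟩ := by
    rw [Nat.cast_smul_eq_nsmul, homP, ← hc]
    refine Finset.sum_congr rfl fun φ _ => ?_
    conv_lhs => rw [← hmap]
    rw [← Finsupp.mapDomain_comp]
    rfl
  rw [h1]
  refine Submodule.smul_mem _ _ (Submodule.subset_span ⟨_, hgood, ?_, rfl⟩)
  rw [← size_mapDomain (edMap g), hmap]
  exact hD

/-- **Invariant polynomials are combinations of homomorphism polynomials.** -/
theorem invariant_mem_HS {n D : ℕ} (hn : 1 ≤ n) {f : MvPolynomial (Ed m (Fin n)) ℂ}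
    (hf : Invariant f) (hD : f.totalDegree ≤ D) : f ∈ HS m n D := by
  classical
  have : Nonempty (Fin n) := ⟨⟨0, hn⟩⟩
  -- average over the permutations
  have h1 : (Fintype.card (Equiv.Perm (Fin n)) : ℂ) • f =
      ∑ g ∈ f.support, f.coeff g • ∑ σ : Equiv.Perm (Fin n),
        (monomial (g.mapDomain (edMap σ)) 1 : MvPolynomial (Ed m (Fin n)) ℂ) := by
    have h2 : ∑ σ : Equiv.Perm (Fin n), rename (edMap σ) f =
        (Fintype.card (Equiv.Perm (Fin n)) : ℂ) • f := by
      rw [Finset.sum_congr rfl fun σ _ => hf σ, Finset.sum_const, Finset.card_univ,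
        Nat.cast_smul_eq_nsmul]
    rw [← h2]
    have h3 : ∀ σ : Equiv.Perm (Fin n), rename (edMap σ) f =
        ∑ g ∈ f.support, f.coeff g • (monomial (g.mapDomain (edMap σ)) 1 :
          MvPolynomial (Ed m (Fin n)) ℂ) := by
      intro σ
      conv_lhs => rw [f.as_sum]
      rw [map_sum]
      refine Finset.sum_congr rfl fun g _ => ?_
      rw [rename_monomial, smul_monomial, smul_eq_mul, mul_one]
    rw [Finset.sum_congr rfl fun σ _ => h3 σ, Finset.sum_comm]
    refine Finset.sum_congr rfl fun g _ => ?_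
    rw [Finset.smul_sum]
  have hcard : (Fintype.card (Equiv.Perm (Fin n)) : ℂ) ≠ 0 := by
    exact_mod_cast Fintype.card_ne_zero
  have h4 : f = (Fintype.card (Equiv.Perm (Fin n)) : ℂ)⁻¹ •
      ∑ g ∈ f.support, f.coeff g • ∑ σ : Equiv.Perm (Fin n),
        (monomial (g.mapDomain (edMap σ)) 1 : MvPolynomial (Ed m (Fin n)) ℂ) := by
    rw [← h1, smul_smul, inv_mul_cancel₀ hcard, one_smul]
  rw [h4]
  refine Submodule.smul_mem _ _ (Submodule.sum_mem _ fun g hg => Submodule.smul_mem _ _ ?_)
  have hgD : size g ≤ D := (le_totalDegree hg).trans hD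
  -- permutations are the injective maps
  set F : (Fin n → Fin n) → MvPolynomial (Ed m (Fin n)) ℂ :=
    fun φ => monomial (g.mapDomain (edMap φ)) 1 with hF
  have h5 : ∑ σ : Equiv.Perm (Fin n), F σ = ∑ φ : Fin n → Fin n,
      (∏ p ∈ (Finset.univ : Finset (Fin n)).offDiag,
        (1 - if φ p.1 = φ p.2 then (1 : ℂ) else 0)) • F φ := by
    have h6 : ∀ φ : Fin n → Fin n, (∏ p ∈ (Finset.univ : Finset (Fin n)).offDiag,
        (1 - if φ p.1 = φ p.2 then (1 : ℂ) else 0)) = if Function.Injective φ then 1 else 0 := by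
      intro φ
      split_ifs with hi
      · refine Finset.prod_eq_one fun p hp => ?_
        rw [Finset.mem_offDiag] at hp
        rw [if_neg fun hh => hp.2.2 (hi hh), sub_zero]
      · unfold Function.Injective at hi
        push Not at hi
        obtain ⟨a, b, hab, hne⟩ := hi
        refine Finset.prod_eq_zero (i := (a, b)) ?_ ?_
        · rw [Finset.mem_offDiag]
          exact ⟨Finset.mem_univ _, Finset.mem_univ _, hne⟩
        · simp [hab]
    simp only [h6, ite_smul, one_smul, zero_smul]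
    rw [← Finset.sum_filter]
    refine Finset.sum_bij (fun σ _ => (σ : Fin n → Fin n)) ?_ ?_ ?_ ?_
    · intro σ _
      simp [σ.injective]
    · intro σ _ τ _ h
      exact Equiv.ext fun x => congrFun h x
    · intro φ hφ
      have hφ' : Function.Injective φ := (Finset.mem_filter.mp hφ).2
      exact ⟨Equiv.ofBijective φ (Finite.injective_iff_bijective.mp hφ'), Finset.mem_univ _, rfl⟩
    · intro σ _; rfl
  have h7 := sum_inj_mem (W := Fin n) ((Finset.univ : Finset (Fin n)).offDiag) F
  rw [h5]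
  refine Submodule.span_le.mpr ?_ h7
  rintro z ⟨r, rfl⟩
  have h8 : ∑ φ : Fin n → Fin n, F (φ ∘ r) = ∑ φ : Fin n → Fin n,
      (monomial ((g.mapDomain (edMap r)).mapDomain (edMap φ)) 1 :
        MvPolynomial (Ed m (Fin n)) ℂ) := by
    refine Finset.sum_congr rfl fun φ _ => ?_
    rw [← Finsupp.mapDomain_comp]
    rfl
  rw [h8]
  exact hom_mem_HS _ (by rw [size_mapDomain]; exact hgD)

end Pool.Agent.R803.PG
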