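import Pool.Agent.R803.PG.Bound3
import Pool.Agent.R803.PG.Rep
import Pool.Agent.R803.MM.Point

/-!
# Block matrices along a cycle of a pattern
-/

namespace Pool.Agent.R803.PG

set_option linter.unusedSectionVars false
set_option linter.unusedSimpArgs false

open MvPolynomial Pool.Agent.R803.MM

variable {m : ℕ}

/-- Three consecutive edges of a cycle of a pattern. -/
structure Cyc {s : ℕ} (h₀ : Ed m (Fin s) →₀ ℕ) where
  c0 : Fin s
  c1 : Fin s
  c2 : Fin s
  c3 : Fin s
  E0 : Ed m (Fin s)
  E1 : Ed m (Fin s)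
  E2 : Ed m (Fin s)
  h01 : c0 ≠ c1
  h02 : c0 ≠ c2
  h12 : c1 ≠ c2
  h31 : c3 ≠ c1
  h32 : c3 ≠ c2
  m0 : h₀ E0 ≠ 0
  m1 : h₀ E1 ≠ 0
  m2 : h₀ E2 ≠ 0
  j0 : (E0.2.1 = c0 ∧ E0.2.2 = c1) ∨ (E0.2.1 = c1 ∧ E0.2.2 = c0)
  j1 : (E1.2.1 = c1 ∧ E1.2.2 = c2) ∨ (E1.2.1 = c2 ∧ E1.2.2 = c1)
  j2 : (E2.2.1 = c2 ∧ E2.2.2 = c3) ∨ (E2.2.1 = c3 ∧ E2.2.2 = c2)
  conn : ∀ (Ξ : Type) (ξ : Fin s → Ξ), (∀ e, h₀ e ≠ 0 → e.2.1 ≠ c1 → e.2.1 ≠ c2 →
    e.2.2 ≠ c1 → e.2.2 ≠ c2 → ξ e.2.1 = ξ e.2.2) → ξ c3 = ξ c0

/-- Signs. -/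
def sg (b : Bool) : ℂ := if b then -1 else 1

lemma sg_xor (a b : Bool) : sg (xor a b) = sg a * sg b := by
  cases a <;> cases b <;> simp [sg]

lemma sg_mul_self (a : Bool) : sg a * sg a = 1 := by
  cases a <;> simp [sg]

section

variable {s N : ℕ} {h₀ : Ed m (Fin s) →₀ ℕ} (c : Cyc h₀)

/-- The entries of the blocks, without the weights. -/
noncomputable def qq (X : Fin 3 → Matrix (Fin N) (Fin N) R0) (e : Ed m (Fin s))
    (ξ ζ : Fin N × Bool) : R0 :=
  if (e.2.1 ≠ c.c1 ∧ e.2.1 ≠ c.c2) ∧ (e.2.2 ≠ c.c1 ∧ e.2.2 ≠ c.c2) then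
    (if ξ = ζ then 1 else 0)
  else
    1 + (if e = c.E0 then (if e.2.1 = c.c0 then X 0 ξ.1 ζ.1 else X 0 ζ.1 ξ.1) *
        C (sg ξ.2 * sg ζ.2) else 0) +
      (if e = c.E1 then (if e.2.1 = c.c1 then X 1 ξ.1 ζ.1 else X 1 ζ.1 ξ.1) *
        C (sg ξ.2 * sg ζ.2) else 0) +
      (if e = c.E2 then (if e.2.1 = c.c2 then X 2 ξ.1 ζ.1 else X 2 ζ.1 ξ.1) *
        C (sg ξ.2 * sg ζ.2) else 0)

lemma qq_map (φ : R0 →ₐ[ℂ] R0) (X : Fin 3 → Matrix (Fin N) (Fin N) R0) (e : Ed m (Fin s))
    (ξ ζ : Fin N × Bool) : qq c (fun k => (X k).map φ) e ξ ζ = φ (qq c X e ξ ζ) := by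
  have hC : ∀ z : ℂ, φ (C z) = C z := fun z => φ.commutes z
  unfold qq
  split_ifs <;> simp [Matrix.map_apply, map_add, map_mul, hC]

/-- Classes of the vertices. -/
def cls (v : Fin s) : Fin 3 := if v = c.c1 then 1 else if v = c.c2 then 2 else 0

/-- The action of signed permutations. -/
def act (π : Fin 3 → Equiv.Perm (Fin N)) (f : Fin 3 → Fin N → Bool) (k : Fin 3)
    (ξ : Fin N × Bool) : Fin N × Bool := (π k ξ.1, xor ξ.2 (f k ξ.1))

lemma act_injective (π : Fin 3 → Equiv.Perm (Fin N)) (f : Fin 3 → Fin N → Bool) (k : Fin 3) :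
    Function.Injective (act π f k) := by
  rintro ⟨a, α⟩ ⟨b, β⟩ h
  simp only [act, Prod.mk.injEq] at h
  have h1 := (π k).injective h.1
  subst h1
  have h2 : α = β := by
    have := h.2
    cases f k a <;> simpa using this
  rw [h2]

/-- The transformed blocks. -/
noncomputable def trX (π : Fin 3 → Equiv.Perm (Fin N)) (f : Fin 3 → Fin N → Bool)
    (X : Fin 3 → Matrix (Fin N) (Fin N) R0) : Fin 3 → Matrix (Fin N) (Fin N) R0 := fun k a b =>
  C (sg (f k a) * sg (f (k + 1) b)) * X k (π k a) (π (k + 1) b)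

lemma qq_act (π : Fin 3 → Equiv.Perm (Fin N)) (f : Fin 3 → Fin N → Bool)
    (X : Fin 3 → Matrix (Fin N) (Fin N) R0) (e : Ed m (Fin s)) (ξ ζ : Fin N × Bool) :
    qq c X e (act π f (cls c e.2.1) ξ) (act π f (cls c e.2.2) ζ) = qq c (trX π f X) e ξ ζ := by
  have k1 : cls c c.c1 = 1 := by simp [cls]
  have k2 : cls c c.c2 = 2 := by simp [cls, Ne.symm c.h12]
  have k0 : cls c c.c0 = 0 := by simp [cls, c.h01, c.h02]
  have k3 : cls c c.c3 = 0 := by simp [cls, c.h31, c.h32]
  have hs : ∀ (a b d e : ℂ) (x : R0), x * C (a * b * (d * e)) = C (b * e) * x * C (a * d) := by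
    intro a b d e x
    simp only [map_mul]; ring
  have hs' : ∀ (a b d e : ℂ) (x : R0), x * C (a * b * (d * e)) = C (e * b) * x * C (a * d) := by
    intro a b d e x
    simp only [map_mul]; ring
  unfold qq
  by_cases hin : (e.2.1 ≠ c.c1 ∧ e.2.1 ≠ c.c2) ∧ (e.2.2 ≠ c.c1 ∧ e.2.2 ≠ c.c2)
  · rw [if_pos hin, if_pos hin]
    have e1 : cls c e.2.1 = 0 := by simp [cls, hin.1.1, hin.1.2]
    have e2 : cls c e.2.2 = 0 := by simp [cls, hin.2.1, hin.2.2]
    rw [e1, e2]
    by_cases h : ξ = ζ
    · rw [if_pos h, if_pos (by rw [h])]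
    · rw [if_neg h, if_neg fun hh => h (act_injective π f 0 hh)]
  · rw [if_neg hin, if_neg hin]
    congr 1
    · congr 1
      · congr 1
        by_cases h : e = c.E0
        · rw [if_pos h, if_pos h]
          rcases c.j0 with ⟨a1, a2⟩ | ⟨a1, a2⟩
          · rw [h, a1, a2, k0, k1, if_pos rfl, if_pos rfl]
            simp only [act, trX, sg_xor]
            rw [hs]
            rfl
          · rw [h, a1, a2, k0, k1, if_neg (Ne.symm c.h01), if_neg (Ne.symm c.h01)]
            simp only [act, trX, sg_xor]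
            rw [hs']
            rfl
        · rw [if_neg h, if_neg h]
      · by_cases h : e = c.E1
        · rw [if_pos h, if_pos h]
          rcases c.j1 with ⟨a1, a2⟩ | ⟨a1, a2⟩
          · rw [h, a1, a2, k1, k2, if_pos rfl, if_pos rfl]
            simp only [act, trX, sg_xor]
            rw [hs]
            rfl
          · rw [h, a1, a2, k1, k2, if_neg (Ne.symm c.h12), if_neg (Ne.symm c.h12)]
            simp only [act, trX, sg_xor]
            rw [hs']
            rfl
        · rw [if_neg h, if_neg h]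
    · by_cases h : e = c.E2
      · rw [if_pos h, if_pos h]
        rcases c.j2 with ⟨a1, a2⟩ | ⟨a1, a2⟩
        · rw [h, a1, a2, k2, k3, if_pos rfl, if_pos rfl]
          simp only [act, trX, sg_xor]
          rw [hs]
          rfl
        · rw [h, a1, a2, k2, k3, if_neg c.h32, if_neg c.h32]
          simp only [act, trX, sg_xor]
          rw [hs']
          rfl
      · rw [if_neg h, if_neg h]

variable {n r : ℕ} (ε : Fin n ≃ (Fin s × (Fin N × Bool)) ⊕ Fin r)

/-- The big matrices. -/
noncomputable def big (t : Ed m (Fin s) → ℂ) (X : Fin 3 → Matrix (Fin N) (Fin N) R0)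
    (e : Ed m (Fin n)) : R0 :=
  match ε e.2.1, ε e.2.2 with
  | Sum.inl x, Sum.inl y => C (t (e.1, x.1, y.1)) * qq c X (e.1, x.1, y.1) x.2 y.2
  | _, _ => 0

lemma big_inl (t : Ed m (Fin s) → ℂ) (X : Fin 3 → Matrix (Fin N) (Fin N) R0) (i : Fin m)
    (x y : Fin s × (Fin N × Bool)) :
    big c ε t X (i, ε.symm (Sum.inl x), ε.symm (Sum.inl y)) =
      C (t (i, x.1, y.1)) * qq c X (i, x.1, y.1) x.2 y.2 := by
  simp [big]

lemma big_map (φ : R0 →ₐ[ℂ] R0) (t : Ed m (Fin s) → ℂ)
    (X : Fin 3 → Matrix (Fin N) (Fin N) R0) (e : Ed m (Fin n)) :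
    big c ε t (fun k => (X k).map φ) e = φ (big c ε t X e) := by
  have hC : ∀ z : ℂ, φ (C z) = C z := fun z => φ.commutes z
  unfold big
  rcases ε e.2.1 with x | x <;> rcases ε e.2.2 with y | y <;> simp [qq_map, hC]

/-- Signed permutations as permutations of all indices. -/
noncomputable def bigPerm (π : Fin 3 → Equiv.Perm (Fin N)) (f : Fin 3 → Fin N → Bool) :
    Equiv.Perm (Fin n) :=
  (ε.trans (Equiv.sumCongr (Equiv.ofBijective
    (fun x : Fin s × (Fin N × Bool) => (x.1, act π f (cls c x.1) x.2))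
    (Finite.injective_iff_bijective.mp (by
      rintro ⟨v, ξ⟩ ⟨w, ζ⟩ h
      simp only [Prod.mk.injEq] at h
      obtain ⟨rfl, h2⟩ := h
      rw [act_injective π f _ h2]))) (Equiv.refl _))).trans ε.symm

lemma big_perm (π : Fin 3 → Equiv.Perm (Fin N)) (f : Fin 3 → Fin N → Bool)
    (t : Ed m (Fin s) → ℂ) (X : Fin 3 → Matrix (Fin N) (Fin N) R0) :
    big c ε t X ∘ edMap (bigPerm c ε π f) = big c ε t (trX π f X) := by
  funext e
  obtain ⟨i, a, b⟩ := e
  obtain ⟨a', rfl⟩ := ε.symm.surjective a
  obtain ⟨b', rfl⟩ := ε.symm.surjective b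
  rcases a' with x | x <;> rcases b' with y | y
  · simp only [Function.comp_apply, edMap, bigPerm, Equiv.trans_apply, Equiv.apply_symm_apply,
      Equiv.sumCongr_apply, Sum.map_inl, Equiv.ofBijective_apply]
    rw [big_inl, big_inl]
    have := qq_act c π f X (i, x.1, y.1) x.2 y.2
    simp only at this
    rw [this]
  · simp [edMap, bigPerm, big]
  · simp [edMap, bigPerm, big]
  · simp [edMap, bigPerm, big]

lemma aff_big (t : Ed m (Fin s) → ℂ) (e : Ed m (Fin n)) :
    IsAff fun X : Fin 3 → Matrix (Fin N) (Fin N) R0 => big c ε t X e := by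
  unfold big
  rcases ε e.2.1 with x | x <;> rcases ε e.2.2 with y | y
  · simp only
    refine IsAff.const_mul ?_ _
    unfold qq
    have hone : IsAff (q := N) fun _ => (1 : R0) := by simpa using IsAff.const (q := N) 1
    by_cases hin : (x.1 ≠ c.c1 ∧ x.1 ≠ c.c2) ∧ (y.1 ≠ c.c1 ∧ y.1 ≠ c.c2)
    · simp only [hin, and_self, not_false_eq_true, ne_eq, if_true]
      split_ifs
      · exact hone
      · exact IsAff.zero
    · have hz : ∀ X : Fin 3 → Matrix (Fin N) (Fin N) R0, (if (x.1 ≠ c.c1 ∧ x.1 ≠ c.c2) ∧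
          (y.1 ≠ c.c1 ∧ y.1 ≠ c.c2) then (if x.2 = y.2 then (1 : R0) else 0)
          else
            1 + (if (e.1, x.1, y.1) = c.E0 then (if x.1 = c.c0 then X 0 x.2.1 y.2.1 else
                X 0 y.2.1 x.2.1) * C (sg x.2.2 * sg y.2.2) else 0) +
              (if (e.1, x.1, y.1) = c.E1 then (if x.1 = c.c1 then X 1 x.2.1 y.2.1 else
                X 1 y.2.1 x.2.1) * C (sg x.2.2 * sg y.2.2) else 0) +
              (if (e.1, x.1, y.1) = c.E2 then (if x.1 = c.c2 then X 2 x.2.1 y.2.1 else
                X 2 y.2.1 x.2.1) * C (sg x.2.2 * sg y.2.2) else 0)) =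
            1 + (if (e.1, x.1, y.1) = c.E0 then (if x.1 = c.c0 then X 0 x.2.1 y.2.1 else
                X 0 y.2.1 x.2.1) * C (sg x.2.2 * sg y.2.2) else 0) +
              (if (e.1, x.1, y.1) = c.E1 then (if x.1 = c.c1 then X 1 x.2.1 y.2.1 else
                X 1 y.2.1 x.2.1) * C (sg x.2.2 * sg y.2.2) else 0) +
              (if (e.1, x.1, y.1) = c.E2 then (if x.1 = c.c2 then X 2 x.2.1 y.2.1 else
                X 2 y.2.1 x.2.1) * C (sg x.2.2 * sg y.2.2) else 0) := fun X => if_neg hin
      simp only [hz]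
      refine ((hone.add ?_).add ?_).add ?_
      · split_ifs
        · exact (IsAff.coord 0 _ _).mul_const _
        · exact (IsAff.coord 0 _ _).mul_const _
        · exact IsAff.zero
      · split_ifs
        · exact (IsAff.coord 1 _ _).mul_const _
        · exact (IsAff.coord 1 _ _).mul_const _
        · exact IsAff.zero
      · split_ifs
        · exact (IsAff.coord 2 _ _).mul_const _
        · exact (IsAff.coord 2 _ _).mul_const _
        · exact IsAff.zero
  · exact IsAff.zero
  · exact IsAff.zero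
  · exact IsAff.zero

/-- The value of an invariant polynomial does not change. -/
lemma aeval_big_perm {f : MvPolynomial (Ed m (Fin n)) ℂ} (hf : Invariant f)
    (π : Fin 3 → Equiv.Perm (Fin N)) (g : Fin 3 → Fin N → Bool) (t : Ed m (Fin s) → ℂ)
    (X : Fin 3 → Matrix (Fin N) (Fin N) R0) :
    aeval (big c ε t (trX π g X)) f = aeval (big c ε t X) f := by
  rw [← big_perm, ← aeval_rename, hf]

/-- **The cubic form is a multiple of the trace of a product.** -/
theorem cubic {f : MvPolynomial (Ed m (Fin n)) ℂ} (hf : Invariant f) (t : Ed m (Fin s) → ℂ)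
    (z : Fin N) (i j j' k k' l : Fin N) :
    lam (aeval (big c ε t (tst i j j' k k' l)) f) =
      if j = j' ∧ k = k' ∧ l = i then lam (aeval (big c ε t (tst z z z z z z)) f) else 0 := by
  -- sign changes
  have key : ∀ (g : Fin 3 → Fin N → Bool) (a : Fin 3),
      trX (fun _ => Equiv.refl _) g (tst i j j' k k' l) =
        (fun b => (tst i j j' k k' l b).map (neg1 a)) →
      lam (aeval (big c ε t (tst i j j' k k' l)) f) = 0 := by
    intro g a h
    have h1 := aeval_big_perm c ε hf (fun _ => Equiv.refl _) g t (tst i j j' k k' l)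
    rw [h] at h1
    have h2 : (big c ε t fun b => (tst i j j' k k' l b).map (neg1 a)) =
        fun e => neg1 a (big c ε t (tst i j j' k k' l) e) := by
      funext e
      exact big_map c ε (neg1 a) t _ e
    rw [h2] at h1
    have h3 : aeval (fun e => neg1 a (big c ε t (tst i j j' k k' l) e)) f =
        neg1 a (aeval (big c ε t (tst i j j' k k' l)) f) := (comp_aeval_apply _ _ _).symm
    rw [h3] at h1
    have h4 := congrArg lam h1
    rw [lam_neg1] at h4
    have h5 : (2 : ℂ) * lam (aeval (big c ε t (tst i j j' k k' l)) f) = 0 := by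
      linear_combination (-1 : ℂ) * h4
    simpa using h5
  have hsingle : ∀ (a b : Fin N) (x : R0) (u v : Fin N) (d : ℂ), (u = a → v = b → d = 1) →
      C d * Matrix.single a b x u v = Matrix.single a b x u v := by
    intro a b x u v d hd
    by_cases h1 : a = u ∧ b = v
    · rw [hd h1.1.symm h1.2.symm]; simp
    · simp [Matrix.single, h1]
  have hsingle' : ∀ (a b : Fin N) (e : Fin 3) (u v : Fin N) (d : ℂ), (u = a → v = b → d = -1) →
      C d * Matrix.single a b (X e : R0) u v = neg1 e (Matrix.single a b (X e : R0) u v) := by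
    intro a b e u v d hd
    by_cases h1 : a = u ∧ b = v
    · rw [hd h1.1.symm h1.2.symm]; simp [Matrix.single, h1, neg1]
    · simp [Matrix.single, h1]
  have hneg : ∀ (a b : Fin N) (e e' : Fin 3) (u v : Fin N), e ≠ e' →
      neg1 e' (Matrix.single a b (X e : R0) u v) = Matrix.single a b (X e : R0) u v := by
    intro a b e e' u v he
    by_cases h1 : a = u ∧ b = v
    · simp [Matrix.single, h1, neg1, he]
    · simp [Matrix.single, h1]
  by_cases hj : j = j'
  · by_cases hk : k = k'
    · by_cases hl : l = i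
      · rw [if_pos ⟨hj, hk, hl⟩]
        subst hj hk hl
        have h1 := aeval_big_perm c ε hf ![Equiv.swap z l, Equiv.swap z j, Equiv.swap z k]
          (fun _ _ => false) t (tst l j j k k l)
        have h2 : trX ![Equiv.swap z l, Equiv.swap z j, Equiv.swap z k] (fun _ _ => false)
            (tst l j j k k l) = tst z z z z z z := by
          have hsw : ∀ a b : Fin N, (a = Equiv.swap z a b) ↔ z = b := by
            intro a b
            constructor
            · intro h
              have h' := congrArg (Equiv.swap z a) h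
              rw [Equiv.swap_apply_right, Equiv.swap_apply_self] at h'
              exact h'
            · rintro rfl; simp
          funext e
          refine Matrix.ext fun a b => ?_
          fin_cases e
          · simp [trX, tst, sg, Matrix.single, hsw]
          · simp [trX, tst, sg, Matrix.single, hsw]
          · simp [trX, tst, sg, Matrix.single, hsw]
        rw [h2] at h1
        rw [h1]
      · rw [if_neg (by tauto)]
        refine key ![fun a => decide (a = i), fun _ => false, fun _ => false] 0 ?_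
        funext e
        refine Matrix.ext fun a b => ?_
        rw [Matrix.map_apply]
        fin_cases e
        · simp only [trX, tst, Equiv.refl_apply]
          refine hsingle' _ _ _ _ _ _ fun ha _ => ?_
          simp [sg, ha]
        · simp only [trX, tst, Equiv.refl_apply]
          refine (hsingle _ _ _ _ _ _ fun ha hb => ?_).trans
            (hneg _ _ 1 0 _ _ (by decide)).symm
          simp [sg]
        · simp only [trX, tst, Equiv.refl_apply]
          refine (hsingle _ _ _ _ _ _ fun ha hb => ?_).trans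
            (hneg _ _ 2 0 _ _ (by decide)).symm
          simp [sg, hb, hl]
    · rw [if_neg (by tauto)]
      refine key ![fun _ => false, fun _ => false, fun a => decide (a = k)] 1 ?_
      funext e
      refine Matrix.ext fun a b => ?_
      rw [Matrix.map_apply]
      fin_cases e
      · simp only [trX, tst, Equiv.refl_apply]
        refine (hsingle _ _ _ _ _ _ fun ha hb => ?_).trans
          (hneg _ _ 0 1 _ _ (by decide)).symm
        simp [sg]
      · simp only [trX, tst, Equiv.refl_apply]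
        refine hsingle' _ _ _ _ _ _ fun ha hb => ?_
        simp [sg, hb]
      · simp only [trX, tst, Equiv.refl_apply]
        refine (hsingle _ _ _ _ _ _ fun ha hb => ?_).trans
          (hneg _ _ 2 1 _ _ (by decide)).symm
        simp [sg, ha, Ne.symm hk]
  · rw [if_neg (by tauto)]
    refine key ![fun _ => false, fun a => decide (a = j), fun _ => false] 0 ?_
    funext e
    refine Matrix.ext fun a b => ?_
    rw [Matrix.map_apply]
    fin_cases e
    · simp only [trX, tst, Equiv.refl_apply]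
      refine hsingle' _ _ _ _ _ _ fun ha hb => ?_
      simp [sg, hb]
    · simp only [trX, tst, Equiv.refl_apply]
      refine (hsingle _ _ _ _ _ _ fun ha hb => ?_).trans
        (hneg _ _ 1 0 _ _ (by decide)).symm
      simp [sg, ha, Ne.symm hj]
    · simp only [trX, tst, Equiv.refl_apply]
      refine (hsingle _ _ _ _ _ _ fun ha hb => ?_).trans
        (hneg _ _ 2 0 _ _ (by decide)).symm
      simp [sg]

end

end Pool.Agent.R803.PG
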