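import Pool.Agent.R803.PG.Main1
import Pool.Agent.R803.MM.NF

/-!
# Lower bound
-/

namespace Pool.Agent.R803.PG

set_option linter.unusedSectionVars false
set_option linter.unusedSimpArgs false

open MvPolynomial Pool.Agent.R803.MM Pool.Agent.H53R3 Pool.Agent.H515R2.MMR

variable {m : ℕ}

lemma exists_edge {V : Type*} {h : Ed m V →₀ ℕ} {u v : V} (huv : (graph h).Adj u v) :
    ∃ e : Ed m V, h e ≠ 0 ∧ ((e.2.1 = u ∧ e.2.2 = v) ∨ (e.2.1 = v ∧ e.2.2 = u)) := by
  obtain ⟨-, i, h1 | h1⟩ := huv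
  · exact ⟨(i, u, v), h1, Or.inl ⟨rfl, rfl⟩⟩
  · exact ⟨(i, v, u), h1, Or.inr ⟨rfl, rfl⟩⟩

/-- A pattern with a cycle. -/
theorem exists_cyc {s : ℕ} {h₀ : Ed m (Fin s) →₀ ℕ} (h : ¬ (graph h₀).IsAcyclic) :
    Nonempty (Cyc h₀) := by
  rw [SimpleGraph.isAcyclic_iff_free_cycleGraph] at h
  push Not at h
  obtain ⟨l, hl, hl2⟩ := h
  obtain ⟨k, rfl⟩ : ∃ k, l = k + 3 := ⟨l - 3, by omega⟩
  obtain ⟨f⟩ := hl2
  have hinj : Function.Injective f := f.injective
  have hadj : ∀ a b : Fin (k + 3), b - a = 1 → (graph h₀).Adj (f a) (f b) := fun a b hab =>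
    f.toHom.map_adj (SimpleGraph.cycleGraph_adj.mpr (Or.inr hab))
  let g : ℕ → Fin (k + 3) := fun j => ⟨j % (k + 3), Nat.mod_lt _ (by omega)⟩
  have gval : ∀ j, j < k + 3 → (g j : ℕ) = j := fun j hj => Nat.mod_eq_of_lt hj
  have gtop : g (k + 3) = g 0 := Fin.ext (by simp [g])
  have gadj : ∀ j, (graph h₀).Adj (f (g j)) (f (g (j + 1))) := by
    intro j
    apply hadj
    have : g (j + 1) = g j + 1 := by
      apply Fin.ext
      simp [g, Fin.val_add, Nat.add_mod]
    rw [this, add_sub_cancel_left]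
  have gne : ∀ i j, i < k + 3 → j < k + 3 → i ≠ j → f (g i) ≠ f (g j) := by
    intro i j hi hj hij h
    have h1 := congrArg Fin.val (hinj h)
    rw [gval i hi, gval j hj] at h1
    exact hij h1
  have hne : ∀ j : ℕ, 3 ≤ j → j ≤ k + 3 → f (g j) ≠ f (g 1) ∧ f (g j) ≠ f (g 2) := by
    intro j h3 hj
    rcases Nat.lt_or_eq_of_le hj with hj' | rfl
    · exact ⟨gne _ _ hj' (by omega) (by omega), gne _ _ hj' (by omega) (by omega)⟩
    · rw [gtop]
      exact ⟨gne _ _ (by omega) (by omega) (by omega), gne _ _ (by omega) (by omega) (by omega)⟩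
  obtain ⟨E0, m0, j0⟩ := exists_edge (gadj 0)
  obtain ⟨E1, m1, j1⟩ := exists_edge (gadj 1)
  obtain ⟨E2, m2, j2⟩ := exists_edge (gadj 2)
  refine ⟨⟨f (g 0), f (g 1), f (g 2), f (g 3), E0, E1, E2,
    gne _ _ (by omega) (by omega) (by omega), gne _ _ (by omega) (by omega) (by omega),
    gne _ _ (by omega) (by omega) (by omega), (hne 3 le_rfl (by omega)).1,
    (hne 3 le_rfl (by omega)).2, m0, m1, m2, j0, j1, j2, ?_⟩⟩
  intro Ξ ξ hξ
  have hwalk : ∀ j : ℕ, j ≤ k → ξ (f (g (3 + j))) = ξ (f (g 3)) := by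
    intro j
    induction j with
    | zero => intro _; rfl
    | succ j ih =>
      intro hj
      rw [← ih (by omega)]
      obtain ⟨e, he, hj2⟩ := exists_edge (gadj (3 + j))
      have q1 := hne (3 + j) (by omega) (by omega)
      have q2 := hne (3 + (j + 1)) (by omega) (by omega)
      rw [← add_assoc] at q2
      rw [← add_assoc]
      rcases hj2 with ⟨a1, a2⟩ | ⟨a1, a2⟩
      · have := hξ e he (by rw [a1]; exact q1.1) (by rw [a1]; exact q1.2) (by rw [a2]; exact q2.1)
          (by rw [a2]; exact q2.2)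
        rw [a1, a2] at this
        exact this.symm
      · have := hξ e he (by rw [a1]; exact q2.1) (by rw [a1]; exact q2.2) (by rw [a2]; exact q1.1)
          (by rw [a2]; exact q1.2)
        rw [a1, a2] at this
        exact this
  have h4 := hwalk k le_rfl
  rw [add_comm 3 k, gtop] at h4
  exact h4.symm

/-- Patterns without isolated vertices are small. -/
lemma card_le_of_good {s : ℕ} {h : Ed m (Fin s) →₀ ℕ} (hg : Good h) : s ≤ 2 * size h := by
  classical
  have h1 : (Finset.univ : Finset (Fin s)) ⊆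
      h.support.biUnion fun e => {e.2.1, e.2.2} := by
    intro v _
    obtain ⟨e, he, hev⟩ := hg v
    rw [Finset.mem_biUnion]
    refine ⟨e, he, ?_⟩
    rcases hev with rfl | rfl <;> simp
  have h2 := Finset.card_le_card h1
  rw [Finset.card_univ, Fintype.card_fin] at h2
  have h3 : (h.support.biUnion fun e => ({e.2.1, e.2.2} : Finset (Fin s))).card ≤
      ∑ e ∈ h.support, 2 := by
    refine Finset.card_biUnion_le.trans (Finset.sum_le_sum fun e _ => ?_)
    exact Finset.card_le_two
  have h4 : h.support.card ≤ size h := by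
    rw [size, Finsupp.sum, Finset.card_eq_sum_ones]
    refine Finset.sum_le_sum fun e he => ?_
    exact Nat.one_le_iff_ne_zero.mpr (Finsupp.mem_support_iff.mp he)
  rw [Finset.sum_const, smul_eq_mul] at h3
  omega

lemma homP_invariant (n : ℕ) (H : Pat m) : Invariant (homP n H) := by
  intro σ
  unfold homP
  rw [map_sum]
  have h1 : ∀ φ : Fin H.1 → Fin n, rename (edMap σ) (monomial (H.2.mapDomain (edMap φ)) (1 : ℂ)) =
      monomial (H.2.mapDomain (edMap (σ ∘ φ))) 1 := by
    intro φ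
    rw [rename_monomial, ← Finsupp.mapDomain_comp]
    rfl
  rw [Finset.sum_congr rfl fun φ _ => h1 φ]
  exact Equiv.sum_comp (Equiv.arrowCongr (Equiv.refl (Fin H.1)) σ)
    (fun φ : Fin H.1 → Fin n => (monomial (H.2.mapDomain (edMap φ)) (1 : ℂ)))

/-- A combination of homomorphism polynomials. -/
noncomputable def combo (n : ℕ) (b : Pat m →₀ ℂ) : MvPolynomial (Ed m (Fin n)) ℂ :=
  b.sum fun H z => z • homP n H

lemma combo_invariant (n : ℕ) (b : Pat m →₀ ℂ) : Invariant (combo n b) := by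
  intro σ
  unfold combo Finsupp.sum
  rw [map_sum]
  refine Finset.sum_congr rfl fun H _ => ?_
  rw [map_smul, homP_invariant n H σ]

/-- The inverse of the numbering. -/
def dec {m n : ℕ} (t : Fin (m * (n * n))) : Ed m (Fin n) :=
  ((finProdFinEquiv.symm t).1, (finProdFinEquiv.symm (finProdFinEquiv.symm t).2).1,
    (finProdFinEquiv.symm (finProdFinEquiv.symm t).2).2)

lemma dec_enc {n : ℕ} (e : Ed m (Fin n)) : dec (enc e) = e := by
  simp [dec, enc]

/-- A surjection on the vertices from a pattern. -/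
lemma surj_of_map {s s' : ℕ} {h : Ed m (Fin s) →₀ ℕ} {h' : Ed m (Fin s') →₀ ℕ}
    (hg : Good h) (p : Fin s' → Fin s) (hp : h'.mapDomain (edMap p) = h) :
    Function.Surjective p := by
  classical
  intro v
  obtain ⟨e, he, hev⟩ := hg v
  rw [← hp] at he
  have h1 := Finsupp.mapDomain_support he
  rw [Finset.mem_image] at h1
  obtain ⟨e', -, rfl⟩ := h1
  rcases hev with h2 | h2
  · exact ⟨e'.2.1, h2⟩
  · exact ⟨e'.2.2, h2⟩

open scoped Classical in
/-- **Lower bound.** -/
theorem lower_core {n N K : ℕ} (hN : 1 ≤ N) (b : Pat m →₀ ℂ)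
    (hgood : ∀ H ∈ b.support, Good H.2)
    (hiso : ∀ H ∈ b.support, ∀ H' ∈ b.support, ¬ (graph H.2).IsAcyclic →
      ¬ (graph H'.2).IsAcyclic → Iso H' H → H' = H)
    (hex : ∃ H ∈ b.support, ¬ (graph H.2).IsAcyclic)
    (hK : ∀ H ∈ b.support, ¬ (graph H.2).IsAcyclic → H.1 ≤ K) (hn : K * (2 * N) ≤ n) {L : ℕ}
    (hL : SLPComputes (xv (m := m * (n * n))) L {out (combo n b)}) :
    (N : ℝ) ^ omega ≤ 6 * L := by
  classical
  obtain ⟨H₀, hH₀, hmax⟩ := Finset.exists_max_image
    (b.support.filter fun H => ¬ (graph H.2).IsAcyclic) (fun H => H.1) (by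
      obtain ⟨H, h1, h2⟩ := hex
      exact ⟨H, Finset.mem_filter.mpr ⟨h1, h2⟩⟩)
  rw [Finset.mem_filter] at hH₀
  obtain ⟨hb₀, hcyc⟩ := hH₀
  obtain ⟨s, h₀⟩ := H₀
  obtain ⟨c⟩ := exists_cyc hcyc
  have hs : s * (N * 2) ≤ n := by
    have h1 : s ≤ K := hK _ hb₀ hcyc
    calc s * (N * 2) ≤ K * (N * 2) := Nat.mul_le_mul_right _ h1
      _ = K * (2 * N) := by ring
      _ ≤ n := hn
  have ε : Fin n ≃ (Fin s × (Fin N × Bool)) ⊕ Fin (n - s * (N * 2)) := by
    refine Fintype.equivOfCardEq ?_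
    simp only [Fintype.card_fin, Fintype.card_sum, Fintype.card_prod, Fintype.card_bool]
    omega
  set z : Fin N := ⟨0, hN⟩ with hz
  set X0 : Fin 3 → Matrix (Fin N) (Fin N) R0 := tst z z z z z z with hX0
  -- the polynomial in the weights
  set B : MvPolynomial (Ed m (Fin s)) ℂ := ∑ H ∈ b.support, ∑ p : Fin H.1 → Fin s,
    monomial (H.2.mapDomain (edMap p)) (b H * lam (SS c H p X0)) with hB
  have hBeval : ∀ t : Ed m (Fin s) → ℂ, eval t B = lam (aeval (big c ε t X0) (combo n b)) := by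
    intro t
    rw [hB, combo, Finsupp.sum, map_sum, map_sum, lam_sum]
    refine Finset.sum_congr rfl fun H hH => ?_
    rw [map_smul, smul_eq_C_mul, lam_C_mul, aeval_big_homP c ε t X0 (hgood H hH), lam_sum,
      map_sum, Finset.mul_sum]
    refine Finset.sum_congr rfl fun p _ => ?_
    rw [eval_monomial, lam_C_mul, Finsupp.prod_mapDomain_index (by simp)
      (by intro a k l; exact pow_add _ _ _)]
    ring
  -- its coefficient
  have hcoeff : coeff h₀ B ≠ 0 := by
    have hauto : ∀ H ∈ b.support, ∀ p : Fin H.1 → Fin s,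
        coeff h₀ (monomial (H.2.mapDomain (edMap p)) (b H * lam (SS c H p X0))) =
        if h : H = ⟨s, h₀⟩ then (if (H.2.mapDomain (edMap p)) = h₀ then
          b ⟨s, h₀⟩ * lam (SS c ⟨s, h₀⟩ id X0) else 0) else 0 := by
      intro H hH p
      rw [coeff_monomial]
      by_cases hac : (graph H.2).IsAcyclic
      · have h1 : H ≠ ⟨s, h₀⟩ := by
          rintro rfl
          exact hcyc hac
        rw [dif_neg h1, lam_SS_acyclic c hac p z, mul_zero, ite_self]
      · by_cases hmap : H.2.mapDomain (edMap p) = h₀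
        · have hsurj := surj_of_map (hgood _ hb₀) p hmap
          have hle : H.1 ≤ s := hmax H (Finset.mem_filter.mpr ⟨hH, hac⟩)
          have hcard : H.1 = s := by
            refine le_antisymm hle ?_
            have := Fintype.card_le_of_surjective p hsurj
            simpa using this
          have hbij : Function.Bijective p := by
            rw [Fintype.bijective_iff_surjective_and_card]
            exact ⟨hsurj, by simpa using hcard⟩
          have hI : Iso H ⟨s, h₀⟩ := ⟨Equiv.ofBijective p hbij, hmap⟩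
          have heq : H = ⟨s, h₀⟩ := hiso ⟨s, h₀⟩ hb₀ H hH hcyc hac hI
          subst heq
          rw [if_pos hmap, dif_pos rfl, if_pos hmap, SS_auto c hbij hmap]
        · rw [if_neg hmap]
          by_cases h1 : H = ⟨s, h₀⟩
          · rw [dif_pos h1, if_neg hmap]
          · rw [dif_neg h1]
    have h1 : coeff h₀ B = ((Finset.univ.filter fun p : Fin s → Fin s =>
        h₀.mapDomain (edMap p) = h₀).card : ℂ) * (b ⟨s, h₀⟩ * lam (SS c ⟨s, h₀⟩ id X0)) := by
      rw [hB, coeff_sum, Finset.sum_eq_single (⟨s, h₀⟩ : Pat m)]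
      · rw [coeff_sum, Finset.sum_congr rfl fun p _ => hauto _ hb₀ p]
        simp only [dif_pos]
        rw [← Finset.sum_filter, Finset.sum_const, nsmul_eq_mul]
      · intro H hH hne
        rw [coeff_sum, Finset.sum_congr rfl fun p _ => hauto _ hH p]
        simp only [dif_neg hne, Finset.sum_const_zero]
      · intro h; exact absurd hb₀ h
    rw [h1]
    refine mul_ne_zero ?_ (mul_ne_zero (Finsupp.mem_support_iff.mp hb₀) (lam_SS_self c z))
    rw [Nat.cast_ne_zero, Finset.card_ne_zero]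
    refine ⟨id, Finset.mem_filter.mpr ⟨Finset.mem_univ _, ?_⟩⟩
    have : (edMap id : Ed m (Fin s) → Ed m (Fin s)) = id := by
      funext e; rfl
    rw [this, Finsupp.mapDomain_id]
  have hB0 : B ≠ 0 := by
    intro h
    rw [h, coeff_zero] at hcoeff
    exact hcoeff rfl
  obtain ⟨t, ht⟩ := exists_eval_ne hB0
  rw [hBeval] at ht
  -- the bound
  have hdec : ∀ X, aeval (fun v => big c ε t X (dec v)) (rename enc (combo n b)) =
      aeval (big c ε t X) (combo n b) := by
    intro X
    rw [aeval_rename]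
    congr 2
    funext e
    simp [dec_enc]
  refine bound3_test hN (rename enc (combo n b)) hL
    (fun X v => big c ε t X (dec v)) (fun v => aff_big c ε t (dec v)) _ ht ?_
  intro i j j' k k' l
  rw [hdec]
  exact cubic c ε (combo_invariant n b) t z i j j' k k' l

end Pool.Agent.R803.PG
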