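import Pool.Agent.R803.PG.Upper
import Pool.Agent.R803.PG.Lower

/-!
# The gap
-/

namespace Pool.Agent.R803.PG

set_option linter.unusedSectionVars false
set_option linter.unusedSimpArgs false

open MvPolynomial Pool.Agent.H53R3 Pool.Agent.R803.MM Pool.Agent.H515R2.MMR

variable {m : ℕ}

/-! ## Isomorphic patterns -/

lemma Iso.refl (H : Pat m) : Iso H H := by
  refine ⟨Equiv.refl _, ?_⟩
  have : (edMap (Equiv.refl (Fin H.1)) : Ed m (Fin H.1) → Ed m (Fin H.1)) = id := by
    funext e; rfl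
  rw [this, Finsupp.mapDomain_id]

lemma Iso.symm {H H' : Pat m} (h : Iso H H') : Iso H' H := by
  obtain ⟨e, he⟩ := h
  refine ⟨e.symm, ?_⟩
  rw [← he, ← Finsupp.mapDomain_comp]
  have : (edMap e.symm ∘ edMap e : Ed m (Fin H.1) → Ed m (Fin H.1)) = id := by
    funext x; simp [edMap]
  rw [this, Finsupp.mapDomain_id]

lemma Iso.trans {H H' H'' : Pat m} (h : Iso H H') (h' : Iso H' H'') : Iso H H'' := by
  obtain ⟨e, he⟩ := h
  obtain ⟨e', he'⟩ := h'
  refine ⟨e.trans e', ?_⟩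
  rw [← he', ← he, ← Finsupp.mapDomain_comp]
  rfl

/-- Isomorphism of patterns as a setoid. -/
def isoSetoid (m : ℕ) : Setoid (Pat m) where
  r := Iso
  iseqv := ⟨Iso.refl, Iso.symm, Iso.trans⟩

/-- A representative of the isomorphism class. -/
noncomputable def rep (H : Pat m) : Pat m := Quotient.out (Quotient.mk (isoSetoid m) H)

lemma rep_iso (H : Pat m) : Iso (rep H) H :=
  @Quotient.mk_out _ (isoSetoid m) H

lemma rep_eq {H H' : Pat m} (h : Iso H H') : rep H = rep H' := by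
  unfold rep
  rw [Quotient.sound (s := isoSetoid m) h]

lemma homP_iso {H H' : Pat m} (h : Iso H H') (n : ℕ) : homP n H = homP n H' := by
  obtain ⟨e, he⟩ := h
  unfold homP
  rw [← Equiv.sum_comp (Equiv.arrowCongr e.symm (Equiv.refl (Fin n)))]
  refine Finset.sum_congr rfl fun φ _ => ?_
  rw [← he, ← Finsupp.mapDomain_comp]
  rfl

lemma good_iso {H H' : Pat m} (h : Iso H H') (hg : Good H'.2) : Good H.2 := by
  classical
  obtain ⟨e, he⟩ := h
  intro v
  obtain ⟨x, hx, hxv⟩ := hg (e v)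
  rw [← he] at hx
  obtain ⟨y, hy, rfl⟩ := Finset.mem_image.mp (Finsupp.mapDomain_support hx)
  refine ⟨y, hy, ?_⟩
  rcases hxv with h1 | h1
  · exact Or.inl (e.injective h1)
  · exact Or.inr (e.injective h1)

lemma size_iso {H H' : Pat m} (h : Iso H H') : size H.2 = size H'.2 := by
  obtain ⟨e, he⟩ := h
  rw [← he, size_mapDomain]

/-- Combinations with pairwise non-isomorphic patterns. -/
theorem exists_combo {n D : ℕ} {f : MvPolynomial (Ed m (Fin n)) ℂ} (hf : f ∈ HS m n D) :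
    ∃ b : Pat m →₀ ℂ, f = combo n b ∧ (∀ H ∈ b.support, Good H.2 ∧ size H.2 ≤ D) ∧
      ∀ H ∈ b.support, ∀ H' ∈ b.support, Iso H H' → H = H' := by
  classical
  have h1 : {z : MvPolynomial (Ed m (Fin n)) ℂ | ∃ H : Pat m, Good H.2 ∧ size H.2 ≤ D ∧
      z = homP n H} = homP n '' {H : Pat m | Good H.2 ∧ size H.2 ≤ D} := by
    ext z
    constructor
    · rintro ⟨H, h1, h2, rfl⟩; exact ⟨H, ⟨h1, h2⟩, rfl⟩
    · rintro ⟨H, ⟨h1, h2⟩, rfl⟩; exact ⟨H, h1, h2, rfl⟩
  rw [HS, h1, Finsupp.mem_span_image_iff_linearCombination] at hf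
  obtain ⟨b, hb, rfl⟩ := hf
  rw [Finsupp.mem_supported] at hb
  have hsupp : ∀ H ∈ (b.mapDomain rep).support, ∃ A ∈ b.support, rep A = H := by
    intro H hH
    exact Finset.mem_image.mp (Finsupp.mapDomain_support hH)
  refine ⟨b.mapDomain rep, ?_, ?_, ?_⟩
  · unfold combo
    rw [Finsupp.sum_mapDomain_index (by simp) (by intro H z w; exact add_smul _ _ _),
      Finsupp.linearCombination_apply]
    refine Finset.sum_congr rfl fun H _ => ?_
    simp only
    rw [homP_iso (rep_iso H)]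
  · intro H hH
    obtain ⟨A, hA, rfl⟩ := hsupp H hH
    have h2 := hb hA
    exact ⟨good_iso (rep_iso A) h2.1, by rw [size_iso (rep_iso A)]; exact h2.2⟩
  · intro H hH H' hH' hI
    obtain ⟨A, hA, rfl⟩ := hsupp H hH
    obtain ⟨A', hA', rfl⟩ := hsupp H' hH'
    exact rep_eq (((rep_iso A).symm.trans hI).trans (rep_iso A'))

/-- Finitely many patterns. -/
lemma finite_patterns (m D : ℕ) : {H : Pat m | Good H.2 ∧ size H.2 ≤ D}.Finite := by
  classical
  let F : (Σ s : Fin (2 * D + 1), (Ed m (Fin s) → Fin (D + 1))) → Pat m := fun x =>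
    ⟨x.1, Finsupp.equivFunOnFinite.symm fun e => (x.2 e : ℕ)⟩
  refine (Set.finite_range F).subset ?_
  rintro ⟨s, h⟩ ⟨hg, hD⟩
  have hs : s ≤ 2 * D := (card_le_of_good hg).trans (Nat.mul_le_mul_left 2 hD)
  have he : ∀ e, h e < D + 1 := by
    intro e
    by_cases h0 : h e = 0
    · omega
    · have : h e ≤ size h := Finset.single_le_sum (f := fun e => h e) (fun _ _ => Nat.zero_le _)
        (Finsupp.mem_support_iff.mpr h0)
      simp only at hD
      omega
  refine ⟨⟨⟨s, by omega⟩, fun e => ⟨h e, he e⟩⟩, ?_⟩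
  simp only [F]
  congr 1
  exact Finsupp.ext fun e => rfl

/-! ## The two cases -/

/-- All patterns are acyclic. -/
theorem upper_combo (b : Pat m →₀ ℂ) (hac : ∀ H ∈ b.support, (graph H.2).IsAcyclic) :
    ∃ c : ℕ, ∀ n : ℕ, SLPComputes (xv (m := m * (n * n))) (c * n ^ 2) {out (combo n b)} := by
  classical
  obtain ⟨c₀, hc₀⟩ := slp_patterns m (∑ H ∈ b.support, size H.2) (∑ H ∈ b.support, H.1)
  refine ⟨c₀ + b.support.card * (3 * ∑ H ∈ b.support, H.1), fun n => ?_⟩
  rcases Nat.eq_zero_or_pos n with rfl | hn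
  · exact slp_zero_case _
  · refine slp_span (hc₀ n hn b.support fun H hH => ⟨hac H hH, ?_, ?_⟩) ?_
    · exact Finset.single_le_sum (f := fun H : Pat m => H.1) (fun _ _ => Nat.zero_le _) hH
    · exact Finset.single_le_sum (f := fun H : Pat m => size H.2) (fun _ _ => Nat.zero_le _) hH
    · intro z hz
      rw [Set.mem_singleton_iff.mp hz, out_eq_aeval, combo, Finsupp.sum, map_sum]
      refine Submodule.sum_mem _ fun H hH => ?_
      rw [map_smul, ← out_eq_aeval]
      exact Submodule.smul_mem _ _ (mem_sp ⟨H, hH, rfl⟩)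

/-- **The gap.** -/
theorem gap (m D : ℕ) : ∃ c : ℕ, ∀ (n : ℕ) (f : MvPolynomial (Ed m (Fin n)) ℂ),
    Invariant f → f.totalDegree ≤ D →
    SLPComputes (xv (m := m * (n * n))) (c * n ^ 2) {out f} ∨
    ∀ N : ℕ, 1 ≤ N → 4 * D * N ≤ n → ∀ L, SLPComputes (xv (m := m * (n * n))) L {out f} →
      (N : ℝ) ^ omega ≤ 6 * L := by
  classical
  obtain ⟨c₀, hc₀⟩ := slp_patterns m D (2 * D)
  set T := (finite_patterns m D).toFinset.filter fun H => (graph H.2).IsAcyclic with hT
  refine ⟨c₀ + T.card * (3 * (2 * D)), fun n f hf hD => ?_⟩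
  rcases Nat.eq_zero_or_pos n with rfl | hn
  · exact Or.inl (slp_zero_case _)
  obtain ⟨b, rfl, hb, hiso⟩ := exists_combo (invariant_mem_HS hn hf hD)
  by_cases hac : ∀ H ∈ b.support, (graph H.2).IsAcyclic
  · left
    refine slp_span (hc₀ n hn T fun H hH => ?_) ?_
    · rw [hT, Finset.mem_filter, Set.Finite.mem_toFinset] at hH
      exact ⟨hH.2, (card_le_of_good hH.1.1).trans (Nat.mul_le_mul_left 2 hH.1.2), hH.1.2⟩
    · intro z hz
      rw [Set.mem_singleton_iff.mp hz, out_eq_aeval, combo, Finsupp.sum, map_sum]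
      refine Submodule.sum_mem _ fun H hH => ?_
      rw [map_smul, ← out_eq_aeval]
      refine Submodule.smul_mem _ _ (mem_sp ⟨H, ?_, rfl⟩)
      rw [hT, Finset.mem_filter, Set.Finite.mem_toFinset]
      exact ⟨hb H hH, hac H hH⟩
  · right
    push Not at hac
    intro N hN hle L hL
    refine lower_core (K := 2 * D) hN b (fun H hH => (hb H hH).1)
      (fun H hH H' hH' _ _ hI => hiso H' hH' H hH hI) hac
      (fun H hH _ => (card_le_of_good (hb H hH).1).trans (Nat.mul_le_mul_left 2 (hb H hH).2))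
      ?_ hL
    calc 2 * D * (2 * N) = 4 * D * N := by ring
      _ ≤ n := hle

/-! ## Costs -/

lemma cost_le {n L : ℕ} {f : MvPolynomial (Ed m (Fin n)) ℂ}
    (h : SLPComputes (xv (m := m * (n * n))) L {out f}) : cost f ≤ L := Nat.sInf_le h

lemma cost_spec {n : ℕ} (f : MvPolynomial (Ed m (Fin n)) ℂ) :
    SLPComputes (xv (m := m * (n * n))) (cost f) {out f} :=
  Nat.sInf_mem (s := {L | SLPComputes (xv (m := m * (n * n))) L {out f}}) ⟨_, slp_poly le_rfl⟩

/-- From all small blocks to the power of `n`. -/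
lemma power_bound {k n : ℕ} {x : ℝ} (hk : 1 ≤ k) (hn : k ≤ n)
    (h : ∀ N : ℕ, 1 ≤ N → k * N ≤ n → (N : ℝ) ^ omega ≤ 6 * x) :
    ((1 / (2 * k : ℝ)) ^ omega / 6) * (n : ℝ) ^ omega ≤ x := by
  set N := n / k with hN
  have h1 : 1 ≤ N := (Nat.one_le_div_iff (by omega)).mpr hn
  have h2 : k * N ≤ n := Nat.mul_div_le n k
  have h3 := h N h1 h2
  have h4 : n ≤ 2 * k * N := by
    have h5 : n < k * (N + 1) := by
      have := Nat.lt_mul_div_succ n (show 0 < k by omega)
      simpa [hN] using this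
    nlinarith
  have hk' : (0 : ℝ) < 2 * k := by positivity
  have h6 : (1 / (2 * k : ℝ)) * n ≤ N := by
    rw [div_mul_eq_mul_div, one_mul, div_le_iff₀ hk']
    have : (n : ℝ) ≤ 2 * k * N := by exact_mod_cast h4
    linarith
  have homega : 0 ≤ omega := omega_nonneg
  have h7 : ((1 / (2 * k : ℝ)) * n) ^ omega ≤ (N : ℝ) ^ omega :=
    Real.rpow_le_rpow (by positivity) h6 homega
  rw [Real.mul_rpow (by positivity) (by positivity)] at h7
  have h8 : (1 / (2 * k : ℝ)) ^ omega * (n : ℝ) ^ omega ≤ 6 * x := h7.trans h3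
  calc (1 / (2 * k : ℝ)) ^ omega / 6 * (n : ℝ) ^ omega =
      ((1 / (2 * k : ℝ)) ^ omega * (n : ℝ) ^ omega) / 6 := by ring
    _ ≤ (6 * x) / 6 := by gcongr
    _ = x := by ring

end Pool.Agent.R803.PG
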