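import Pool.Agent.R803.PG.Flip

/-!
# The contribution of a pattern with a cycle
-/

namespace Pool.Agent.R803.PG

set_option linter.unusedSectionVars false
set_option linter.unusedSimpArgs false

open MvPolynomial Pool.Agent.R803.MM

lemma lam_prod (i a b d : ℂ) (k l r : ℕ) :
    lam (C i * ((1 + C a * X 0) ^ k * (1 + C b * X 1) ^ l * (1 + C d * X 2) ^ r)) =
      i * (k * l * r * (a * b * d)) := by
  rw [lam_C_mul]
  congr 1
  have h0 : ∀ (x : Fin 3) (c : ℂ) (j : ℕ), pderiv x ((1 + C c * X x : R0) ^ j) =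
      C (j * c) * (1 + C c * X x) ^ (j - 1) := by
    intro x c j
    rw [Derivation.leibniz_pow]
    simp only [map_add, Derivation.map_one_eq_zero, zero_add, pderiv_C_mul, pderiv_X_self,
      smul_eq_mul, nsmul_eq_mul, map_mul, map_natCast, Pi.single_eq_same]
    ring
  have h1 : ∀ (x y : Fin 3) (c : ℂ) (j : ℕ), x ≠ y → pderiv x ((1 + C c * X y : R0) ^ j) = 0 := by
    intro x y c j hxy
    rw [Derivation.leibniz_pow]
    simp [pderiv_C_mul, pderiv_X_of_ne (Ne.symm hxy)]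
  unfold lam
  have e2 : pderiv 2 ((1 + C a * X 0 : R0) ^ k * (1 + C b * X 1) ^ l * (1 + C d * X 2) ^ r) =
      C (r * d) * ((1 + C a * X 0) ^ k * (1 + C b * X 1) ^ l * (1 + C d * X 2) ^ (r - 1)) := by
    rw [Derivation.leibniz, Derivation.leibniz, h0, h1 2 0 a k (by decide),
      h1 2 1 b l (by decide)]
    simp only [smul_eq_mul]
    ring
  have e1 : pderiv 1 ((1 + C a * X 0 : R0) ^ k * (1 + C b * X 1) ^ l * (1 + C d * X 2) ^ (r - 1)) =
      C (l * b) * ((1 + C a * X 0) ^ k * (1 + C b * X 1) ^ (l - 1) *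
        (1 + C d * X 2) ^ (r - 1)) := by
    rw [Derivation.leibniz, Derivation.leibniz, h0, h1 1 0 a k (by decide),
      h1 1 2 d (r - 1) (by decide)]
    simp only [smul_eq_mul]
    ring
  have e0 : pderiv 0 ((1 + C a * X 0 : R0) ^ k * (1 + C b * X 1) ^ (l - 1) *
      (1 + C d * X 2) ^ (r - 1)) =
      C (k * a) * ((1 + C a * X 0) ^ (k - 1) * (1 + C b * X 1) ^ (l - 1) *
        (1 + C d * X 2) ^ (r - 1)) := by
    rw [Derivation.leibniz, Derivation.leibniz, h0, h1 0 1 b (l - 1) (by decide),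
      h1 0 2 d (r - 1) (by decide)]
    simp only [smul_eq_mul]
    ring
  rw [e2, pderiv_C_mul, e1, pderiv_C_mul, pderiv_C_mul, e0]
  simp only [smul_eq_mul, map_mul, constantCoeff_C, map_pow, map_add, map_one, constantCoeff_X,
    mul_zero, add_zero, one_pow, mul_one]
  ring

variable {m : ℕ} {s N : ℕ} {h₀ : Ed m (Fin s) →₀ ℕ} (c : Cyc h₀)

/-- The positions which contribute. -/
def Cond (z : Fin N) (ξ : Fin s → Fin N × Bool) : Prop :=
  (∀ e, h₀ e ≠ 0 → e.2.1 ≠ c.c1 → e.2.1 ≠ c.c2 → e.2.2 ≠ c.c1 → e.2.2 ≠ c.c2 →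
    ξ e.2.1 = ξ e.2.2) ∧ z = (ξ c.c0).1 ∧ z = (ξ c.c1).1 ∧ z = (ξ c.c2).1

open scoped Classical in
lemma lam_term (z : Fin N) (ξ : Fin s → Fin N × Bool) :
    lam (h₀.prod fun e k => qq c (tst z z z z z z) e (ξ e.2.1) (ξ e.2.2) ^ k) =
      (h₀ c.E0 * h₀ c.E1 * h₀ c.E2 : ℂ) * (if Cond c z ξ then 1 else 0) := by
  classical
  have h01 := c.h01
  have h02 := c.h02
  have h12 := c.h12
  have h31 := c.h31
  have h32 := c.h32
  set a : ℂ := if z = (ξ c.c0).1 ∧ z = (ξ c.c1).1 then sg (ξ c.c0).2 * sg (ξ c.c1).2 else 0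
    with ha
  set b : ℂ := if z = (ξ c.c1).1 ∧ z = (ξ c.c2).1 then sg (ξ c.c1).2 * sg (ξ c.c2).2 else 0
    with hb
  set d : ℂ := if z = (ξ c.c2).1 ∧ z = (ξ c.c3).1 then sg (ξ c.c2).2 * sg (ξ c.c3).2 else 0
    with hd
  have hE01 : c.E0 ≠ c.E1 := by
    intro h
    have j0 := c.j0
    have j1 := c.j1
    rw [h] at j0
    rcases j0 with ⟨x1, x2⟩ | ⟨x1, x2⟩ <;> rcases j1 with ⟨y1, y2⟩ | ⟨y1, y2⟩
    · exact h01 (x1.symm.trans y1)
    · exact h02 (x1.symm.trans y1)
    · exact h02 (x2.symm.trans y2)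
    · exact h01 (x2.symm.trans y2)
  have hE02 : c.E0 ≠ c.E2 := by
    intro h
    have j0 := c.j0
    have j2 := c.j2
    rw [h] at j0
    rcases j0 with ⟨x1, x2⟩ | ⟨x1, x2⟩ <;> rcases j2 with ⟨y1, y2⟩ | ⟨y1, y2⟩
    · exact h31 (y2.symm.trans x2)
    · exact h12 (x2.symm.trans y2)
    · exact h12 (x1.symm.trans y1)
    · exact h31 (y1.symm.trans x1)
  have hE12 : c.E1 ≠ c.E2 := by
    intro h
    have j1 := c.j1
    have j2 := c.j2
    rw [h] at j1
    rcases j1 with ⟨x1, x2⟩ | ⟨x1, x2⟩ <;> rcases j2 with ⟨y1, y2⟩ | ⟨y1, y2⟩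
    · exact h12 (x1.symm.trans y1)
    · exact h31 (y1.symm.trans x1)
    · exact h31 (y2.symm.trans x2)
    · exact h12 (x2.symm.trans y2)
  have hk : ∀ e : Ed m (Fin s), qq c (tst z z z z z z) e (ξ e.2.1) (ξ e.2.2) =
      C (if (e.2.1 ≠ c.c1 ∧ e.2.1 ≠ c.c2) ∧ (e.2.2 ≠ c.c1 ∧ e.2.2 ≠ c.c2) then
          (if ξ e.2.1 = ξ e.2.2 then 1 else 0) else 1) *
        ((if c.E0 = e then (1 + C a * X 0) else 1) * (if c.E1 = e then (1 + C b * X 1) else 1) *
          (if c.E2 = e then (1 + C d * X 2) else 1)) := by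
    intro e
    have t0 : ∀ x y : Fin N, tst z z z z z z 0 x y = if z = x ∧ z = y then X 0 else 0 := by
      intro x y
      simp [tst, Matrix.single]
    have t1 : ∀ x y : Fin N, tst z z z z z z 1 x y = if z = x ∧ z = y then X 1 else 0 := by
      intro x y
      simp [tst, Matrix.single]
    have t2 : ∀ x y : Fin N, tst z z z z z z 2 x y = if z = x ∧ z = y then X 2 else 0 := by
      intro x y
      simp [tst, Matrix.single]
    unfold qq
    by_cases hin : (e.2.1 ≠ c.c1 ∧ e.2.1 ≠ c.c2) ∧ (e.2.2 ≠ c.c1 ∧ e.2.2 ≠ c.c2)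
    · rw [if_pos hin, if_pos hin]
      have n0 : c.E0 ≠ e := by
        rintro rfl
        rcases c.j0 with ⟨a1, a2⟩ | ⟨a1, a2⟩
        · exact hin.2.1 a2
        · exact hin.1.1 a1
      have n1 : c.E1 ≠ e := by
        rintro rfl
        rcases c.j1 with ⟨a1, a2⟩ | ⟨a1, a2⟩
        · exact hin.1.1 a1
        · exact hin.2.1 a2
      have n2 : c.E2 ≠ e := by
        rintro rfl
        rcases c.j2 with ⟨a1, a2⟩ | ⟨a1, a2⟩
        · exact hin.1.2 a1
        · exact hin.2.2 a2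
      rw [if_neg n0, if_neg n1, if_neg n2, mul_one, mul_one, mul_one]
      split_ifs <;> simp
    · rw [if_neg hin, if_neg hin, map_one, one_mul]
      by_cases g0 : e = c.E0
      · have g1 : e ≠ c.E1 := fun h => hE01 (g0.symm.trans h)
        have g2 : e ≠ c.E2 := fun h => hE02 (g0.symm.trans h)
        rw [if_pos g0, if_neg g1, if_neg g2, if_pos g0.symm, if_neg g1.symm, if_neg g2.symm,
          mul_one, mul_one, add_zero, add_zero]
        congr 1
        rcases c.j0 with ⟨a1, a2⟩ | ⟨a1, a2⟩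
        · rw [g0, a1, a2, if_pos rfl]
          simp only [t0, ha]
          split_ifs
          · ring
          · simp
        · rw [g0, a1, a2, if_neg (Ne.symm h01)]
          simp only [t0, ha]
          split_ifs
          · rw [mul_comm (sg (ξ c.c1).2)]; ring
          · simp
      · by_cases g1 : e = c.E1
        · have g2 : e ≠ c.E2 := fun h => hE12 (g1.symm.trans h)
          rw [if_neg g0, if_pos g1, if_neg g2, if_neg (Ne.symm g0), if_pos g1.symm,
            if_neg g2.symm, mul_one, one_mul, add_zero, add_zero]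
          congr 1
          rcases c.j1 with ⟨a1, a2⟩ | ⟨a1, a2⟩
          · rw [g1, a1, a2, if_pos rfl]
            simp only [t1, hb]
            split_ifs
            · ring
            · simp
          · rw [g1, a1, a2, if_neg (Ne.symm h12)]
            simp only [t1, hb]
            split_ifs
            · rw [mul_comm (sg (ξ c.c2).2)]; ring
            · simp
        · by_cases g2 : e = c.E2
          · rw [if_neg g0, if_neg g1, if_pos g2, if_neg (Ne.symm g0), if_neg (Ne.symm g1),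
              if_pos g2.symm, one_mul, one_mul, add_zero, add_zero]
            congr 1
            rcases c.j2 with ⟨a1, a2⟩ | ⟨a1, a2⟩
            · rw [g2, a1, a2, if_pos rfl]
              simp only [t2, hd]
              split_ifs
              · ring
              · simp
            · rw [g2, a1, a2, if_neg h32]
              simp only [t2, hd]
              split_ifs
              · rw [mul_comm (sg (ξ c.c3).2)]; ring
              · simp
          · rw [if_neg g0, if_neg g1, if_neg g2, if_neg (Ne.symm g0), if_neg (Ne.symm g1),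
              if_neg (Ne.symm g2), mul_one, mul_one, add_zero, add_zero, add_zero]
  have hprod : (h₀.prod fun e k => qq c (tst z z z z z z) e (ξ e.2.1) (ξ e.2.2) ^ k) =
      C (∏ e ∈ h₀.support, (if (e.2.1 ≠ c.c1 ∧ e.2.1 ≠ c.c2) ∧
          (e.2.2 ≠ c.c1 ∧ e.2.2 ≠ c.c2) then
          (if ξ e.2.1 = ξ e.2.2 then (1 : ℂ) else 0) else 1) ^ h₀ e) *
        ((1 + C a * X 0) ^ h₀ c.E0 * (1 + C b * X 1) ^ h₀ c.E1 * (1 + C d * X 2) ^ h₀ c.E2) := by
    have hone : ∀ (E : Ed m (Fin s)) (w : R0), h₀ E ≠ 0 →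
        ∏ e ∈ h₀.support, (if E = e then w else 1) ^ h₀ e = w ^ h₀ E := by
      intro E w hE
      rw [Finset.prod_eq_single E]
      · rw [if_pos rfl]
      · intro e _ he
        rw [if_neg (Ne.symm he), one_pow]
      · intro h
        exact absurd (Finsupp.mem_support_iff.mpr hE) h
    rw [map_prod, ← hone c.E0 _ c.m0, ← hone c.E1 _ c.m1, ← hone c.E2 _ c.m2,
      ← Finset.prod_mul_distrib, ← Finset.prod_mul_distrib, ← Finset.prod_mul_distrib]
    unfold Finsupp.prod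
    refine Finset.prod_congr rfl fun e _ => ?_
    dsimp only
    rw [hk e, mul_pow, mul_pow, mul_pow, map_pow]
  rw [hprod, lam_prod]
  by_cases hI : ∀ e, h₀ e ≠ 0 → e.2.1 ≠ c.c1 → e.2.1 ≠ c.c2 → e.2.2 ≠ c.c1 → e.2.2 ≠ c.c2 →
      ξ e.2.1 = ξ e.2.2
  · have hP : (∏ e ∈ h₀.support, (if (e.2.1 ≠ c.c1 ∧ e.2.1 ≠ c.c2) ∧
          (e.2.2 ≠ c.c1 ∧ e.2.2 ≠ c.c2) then
          (if ξ e.2.1 = ξ e.2.2 then (1 : ℂ) else 0) else 1) ^ h₀ e) = 1 := by
      refine Finset.prod_eq_one fun e he => ?_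
      split_ifs with h1 h2
      · exact one_pow _
      · exact absurd (hI e (Finsupp.mem_support_iff.mp he) h1.1.1 h1.1.2 h1.2.1 h1.2.2) h2
      · exact one_pow _
    have h30 : ξ c.c3 = ξ c.c0 := c.conn _ ξ hI
    rw [hP, one_mul]
    congr 1
    by_cases hz : z = (ξ c.c0).1 ∧ z = (ξ c.c1).1 ∧ z = (ξ c.c2).1
    · rw [if_pos ⟨hI, hz⟩, ha, hb, hd, h30, if_pos ⟨hz.1, hz.2.1⟩, if_pos ⟨hz.2.1, hz.2.2⟩,
        if_pos ⟨hz.2.2, hz.1⟩]
      have e0 := sg_mul_self (ξ c.c0).2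
      have e1 := sg_mul_self (ξ c.c1).2
      have e2 := sg_mul_self (ξ c.c2).2
      calc sg (ξ c.c0).2 * sg (ξ c.c1).2 * (sg (ξ c.c1).2 * sg (ξ c.c2).2) *
          (sg (ξ c.c2).2 * sg (ξ c.c0).2) = (sg (ξ c.c0).2 * sg (ξ c.c0).2) *
            (sg (ξ c.c1).2 * sg (ξ c.c1).2) * (sg (ξ c.c2).2 * sg (ξ c.c2).2) := by ring
        _ = 1 := by rw [e0, e1, e2]; ring
    · rw [if_neg fun h => hz h.2]
      by_cases h0 : z = (ξ c.c0).1 ∧ z = (ξ c.c1).1
      · have hb0 : b = 0 := by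
          rw [hb, if_neg]
          rintro ⟨-, h⟩
          exact hz ⟨h0.1, h0.2, h⟩
        rw [hb0]; ring
      · have ha0 : a = 0 := by
          rw [ha, if_neg h0]
        rw [ha0]; ring
  · rw [if_neg fun h => hI h.1, mul_zero]
    push Not at hI
    obtain ⟨e, he, h1, h2, h3, h4, h5⟩ := hI
    have hP : (∏ e ∈ h₀.support, (if (e.2.1 ≠ c.c1 ∧ e.2.1 ≠ c.c2) ∧
          (e.2.2 ≠ c.c1 ∧ e.2.2 ≠ c.c2) then
          (if ξ e.2.1 = ξ e.2.2 then (1 : ℂ) else 0) else 1) ^ h₀ e) = 0 := by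
      refine Finset.prod_eq_zero (Finsupp.mem_support_iff.mpr he) ?_
      rw [if_pos ⟨⟨h1, h2⟩, ⟨h3, h4⟩⟩, if_neg h5, zero_pow he]
    rw [hP, zero_mul]

/-- **The contribution of the pattern itself.** -/
theorem lam_SS_self (z : Fin N) :
    lam (SS c ⟨s, h₀⟩ id (tst z z z z z z)) ≠ 0 := by
  classical
  have h1 : lam (SS c ⟨s, h₀⟩ id (tst z z z z z z)) =
      (h₀ c.E0 * h₀ c.E1 * h₀ c.E2 : ℂ) * ((Finset.univ.filter fun ξ : Fin s → Fin N × Bool =>
        Cond c z ξ).card : ℂ) := by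
    unfold SS
    rw [lam_sum]
    have h2 : ∀ ξ : Fin s → Fin N × Bool, lam (h₀.prod fun e k =>
        qq c (tst z z z z z z) (edMap id e) (ξ e.2.1) (ξ e.2.2) ^ k) =
        (h₀ c.E0 * h₀ c.E1 * h₀ c.E2 : ℂ) * (if Cond c z ξ then 1 else 0) := fun ξ =>
      lam_term c z ξ
    rw [Finset.sum_congr rfl fun ξ _ => h2 ξ, ← Finset.mul_sum, Finset.sum_boole]
  rw [h1]
  have h3 : (Finset.univ.filter fun ξ : Fin s → Fin N × Bool => Cond c z ξ).card ≠ 0 := by
    rw [Finset.card_ne_zero]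
    refine ⟨fun _ => (z, false), Finset.mem_filter.mpr ⟨Finset.mem_univ _, ?_⟩⟩
    exact ⟨fun _ _ _ _ _ _ => rfl, rfl, rfl, rfl⟩
  have m0 := c.m0
  have m1 := c.m1
  have m2 := c.m2
  have : ((h₀ c.E0 * h₀ c.E1 * h₀ c.E2 *
      (Finset.univ.filter fun ξ : Fin s → Fin N × Bool => Cond c z ξ).card : ℕ) : ℂ) ≠ 0 := by
    rw [Nat.cast_ne_zero]
    exact Nat.mul_ne_zero (Nat.mul_ne_zero (Nat.mul_ne_zero m0 m1) m2) h3
  push_cast at this
  exact this

/-- Automorphisms of the pattern. -/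
lemma SS_auto {p : Fin s → Fin s} (hp : Function.Bijective p)
    (h : h₀.mapDomain (edMap p) = h₀) (X : Fin 3 → Matrix (Fin N) (Fin N) R0) :
    SS c ⟨s, h₀⟩ p X = SS c ⟨s, h₀⟩ id X := by
  classical
  have hF : ∀ F : Ed m (Fin s) → ℕ → R0, (∀ e, F e 0 = 1) →
      (∀ e a b, F e (a + b) = F e a * F e b) → h₀.prod F = h₀.prod fun e k => F (edMap p e) k := by
    intro F h0 h1
    have h2 := Finsupp.prod_mapDomain_index (f := edMap p) (s := h₀) (h := F) h0 h1
    rw [h] at h2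
    exact h2
  have h1 : SS c ⟨s, h₀⟩ id X = ∑ ζ : Fin s → Fin N × Bool,
      h₀.prod fun e k => qq c X (edMap p e) (ζ (p e.2.1)) (ζ (p e.2.2)) ^ k := by
    unfold SS
    refine Finset.sum_congr rfl fun ζ _ => ?_
    exact hF (fun e k => qq c X (edMap id e) (ζ e.2.1) (ζ e.2.2) ^ k) (fun e => pow_zero _)
      (fun e a b => pow_add _ _ _)
  rw [h1]
  unfold SS
  dsimp only
  exact (Equiv.sum_comp (Equiv.arrowCongr (Equiv.ofBijective p hp).symm
    (Equiv.refl (Fin N × Bool))) (fun ξ : Fin s → Fin N × Bool => h₀.prod fun e k =>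
      qq c X (edMap p e) (ξ e.2.1) (ξ e.2.2) ^ k)).symm

end Pool.Agent.R803.PG
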