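import Pool.Agent.R803.PG.Forest
import Pool.Agent.R803.PG.Rep

/-!
# Programs for homomorphism polynomials of forests
-/

namespace Pool.Agent.R803.PG

set_option linter.unusedSectionVars false
set_option linter.unusedSimpArgs false

open MvPolynomial Pool.Agent.H53R3 Pool.Agent.R803.MM

variable {m : ℕ}

lemma out_eq_aeval {n : ℕ} (f : MvPolynomial (Ed m (Fin n)) ℂ) :
    out f = aeval (fun e : Ed m (Fin n) => xv (m := m * (n * n)) (enc e)) f := by
  have h : (IsScalarTower.toAlgHom ℂ (Pl (m * (n * n))) (RF (m * (n * n)))).comp (rename enc) =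
      aeval (fun e : Ed m (Fin n) => xv (m := m * (n * n)) (enc e)) := by
    refine MvPolynomial.algHom_ext fun e => ?_
    simp [xv]
  have := congrArg (fun g => g f) h
  exact this

lemma out_homP (n : ℕ) (H : Pat m) : out (homP n H) = ∑ φ : Fin H.1 → Fin n,
    H.2.prod fun e k => xv (m := m * (n * n)) (enc (edMap φ e)) ^ k := by
  rw [out_eq_aeval]
  unfold homP
  rw [map_sum]
  refine Finset.sum_congr rfl fun φ _ => ?_
  rw [aeval_monomial, map_one, one_mul, Finsupp.prod_mapDomain_index (by simp)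
    (by intro a k l; exact pow_add _ _ _)]

/-- The weight of a pair of vertices. -/
noncomputable def pw {s : ℕ} (n : ℕ) (h : Ed m (Fin s) →₀ ℕ) (u v : Fin s) (a b : Fin n) :
    RF (m * (n * n)) :=
  ∏ i, xv (m := m * (n * n)) (enc (i, a, b)) ^ h (i, u, v)

lemma out_homP_wsum (n : ℕ) (H : Pat m) : out (homP n H) =
    wsum n (fun u v a b => if u = v then 1 else pw n H.2 u v a b) (fun v a => pw n H.2 v v a a) := by
  rw [out_homP]
  unfold wsum
  refine Finset.sum_congr rfl fun φ _ => ?_
  have h1 : (H.2.prod fun e k => xv (m := m * (n * n)) (enc (edMap φ e)) ^ k) =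
      ∏ u, ∏ v, pw n H.2 u v (φ u) (φ v) := by
    rw [Finsupp.prod_fintype _ _ (by simp), Fintype.prod_prod_type]
    unfold pw
    rw [Finset.prod_congr rfl fun i _ => Fintype.prod_prod_type _, Finset.prod_comm]
    refine Finset.prod_congr rfl fun u _ => ?_
    rw [Finset.prod_comm]
    rfl
  rw [h1]
  have h2 : ∀ u v, pw n H.2 u v (φ u) (φ v) =
      (if u = v then pw n H.2 u u (φ u) (φ u) else 1) *
        (if u = v then 1 else pw n H.2 u v (φ u) (φ v)) := by
    intro u v
    split_ifs with h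
    · subst h; simp
    · simp
  rw [Finset.prod_congr rfl fun u _ => Finset.prod_congr rfl fun v _ => h2 u v]
  rw [Finset.prod_congr rfl fun u _ => Finset.prod_mul_distrib, Finset.prod_mul_distrib]
  congr 1
  refine Finset.prod_congr rfl fun u _ => ?_
  rw [Finset.prod_ite_eq]
  simp

lemma sum_le_size {s : ℕ} (h : Ed m (Fin s) →₀ ℕ) (u v : Fin s) :
    ∑ i, h (i, u, v) ≤ size h := by
  classical
  rw [size, Finsupp.sum_fintype _ _ (by simp), Fintype.sum_prod_type]
  refine Finset.sum_le_sum fun i _ => ?_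
  exact Finset.single_le_sum (f := fun e : Fin s × Fin s => h (i, e)) (fun _ _ => Nat.zero_le _)
    (Finset.mem_univ (u, v))

/-- **Upper bound for patterns without cycles.** -/
theorem slp_patterns (m D K : ℕ) : ∃ c₀ : ℕ, ∀ n : ℕ, 1 ≤ n → ∀ T : Finset (Pat m),
    (∀ H ∈ T, (graph H.2).IsAcyclic ∧ H.1 ≤ K ∧ size H.2 ≤ D) →
    SLPComputes (xv (m := m * (n * n))) ((c₀ + T.card * (3 * K)) * n ^ 2)
      {z | ∃ H ∈ T, z = out (homP n H)} := by
  classical
  refine ⟨∑ j ∈ Finset.range (D + 1), (Finset.finsuppAntidiag (Finset.univ : Finset (Fin m)) j).card,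
    fun n hn T hT => ?_⟩
  set c₀ := ∑ j ∈ Finset.range (D + 1),
    (Finset.finsuppAntidiag (Finset.univ : Finset (Fin m)) j).card with hc₀
  have h1 := slp_tasks (x := xv (m := m * (n * n))) (Finset.univ : Finset (Fin n × Fin n))
    (fun t => {z | ∃ s : Fin m →₀ ℕ, s.support ⊆ Finset.univ ∧ s.sum (fun _ k => k) ≤ D ∧
        z = s.prod fun i k => xv (m := m * (n * n)) (enc (i, t.1, t.2)) ^ k}) c₀ slp_zero
    (fun t _ S' L' _ h' => slp_monomials (Finset.univ : Finset (Fin m))
      (fun i => xv (m := m * (n * n)) (enc (i, t.1, t.2))) D h'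
      (fun i _ => input_mem_sp S' _))
  set S1 := (∅ : Set (RF (m * (n * n)))) ∪ ⋃ t ∈ (Finset.univ : Finset (Fin n × Fin n)),
    {z | ∃ s : Fin m →₀ ℕ, s.support ⊆ Finset.univ ∧ s.sum (fun _ k => k) ≤ D ∧
        z = s.prod fun i k => xv (m := m * (n * n)) (enc (i, t.1, t.2)) ^ k} with hS1
  have hpw : ∀ H ∈ T, ∀ u v a b, pw n H.2 u v a b ∈ sp (xv (m := m * (n * n))) S1 := by
    intro H hH u v a b
    refine mem_sp (Or.inr ?_)
    simp only [Set.mem_iUnion]
    refine ⟨(a, b), Finset.mem_univ _, Finsupp.equivFunOnFinite.symm fun i => H.2 (i, u, v),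
      Finset.subset_univ _, ?_, ?_⟩
    · rw [Finsupp.sum_fintype _ _ (by simp)]
      exact (sum_le_size H.2 u v).trans (hT H hH).2.2
    · rw [Finsupp.prod_fintype _ _ (by simp)]
      rfl
  have h2 := slp_tasks (x := xv (m := m * (n * n))) T (fun H => {out (homP n H)})
    (K * (3 * n ^ 2)) h1 ?_
  · refine slp_mono (slp_span h2 ?_) ?_
    · rintro z ⟨H, hH, rfl⟩
      refine mem_sp (Or.inr ?_)
      simp only [Set.mem_iUnion]
      exact ⟨H, hH, rfl⟩
    · rw [Finset.card_univ, Fintype.card_prod, Fintype.card_fin]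
      apply le_of_eq
      ring
  · intro H hH S' L' hS' h'
    have h3 := slp_forest hn H.1 (Fin H.1) (Fintype.card_fin _) (graph H.2) (hT H hH).1
      (fun u v a b => if u = v then 1 else pw n H.2 u v a b) (fun v a => pw n H.2 v v a a) L' S'
      ?_ h' ?_ ?_
    · rw [← out_homP_wsum] at h3
      exact slp_mono h3 (Nat.add_le_add_left (Nat.mul_le_mul_right _ (hT H hH).2.1) _)
    · intro u v huv a b
      split_ifs with he
      · rfl
      · unfold pw
        refine Finset.prod_eq_one fun i _ => ?_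
        have : H.2 (i, u, v) = 0 := by
          by_contra hne
          exact huv ⟨he, i, Or.inl hne⟩
        rw [this, pow_zero]
    · intro u v a b
      split_ifs
      · exact one_mem_sp _
      · exact sp_mono hS' (hpw H hH u v a b)
    · intro v a
      exact sp_mono hS' (hpw H hH v v a a)

/-- Every polynomial is computed by a program. -/
lemma slp_poly {n D : ℕ} {f : MvPolynomial (Ed m (Fin n)) ℂ} (hf : f.totalDegree ≤ D) :
    SLPComputes (xv (m := m * (n * n)))
      (∑ j ∈ Finset.range (D + 1),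
        (Finset.finsuppAntidiag (Finset.univ : Finset (Ed m (Fin n))) j).card) {out f} := by
  classical
  have h1 := slp_monomials (x := xv (m := m * (n * n))) (Finset.univ : Finset (Ed m (Fin n)))
    (fun e => xv (m := m * (n * n)) (enc e)) D slp_zero (fun e _ => input_mem_sp ∅ _)
  rw [zero_add] at h1
  refine slp_span h1 ?_
  intro z hz
  rw [Set.mem_singleton_iff.mp hz, out_eq_aeval, MvPolynomial.aeval_def, MvPolynomial.eval₂_eq]
  refine Submodule.sum_mem _ fun g hg => ?_
  rw [← Algebra.smul_def]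
  refine Submodule.smul_mem _ _ (mem_sp (Or.inr ⟨g, Finset.subset_univ _, ?_, rfl⟩))
  exact (le_totalDegree hg).trans hf

lemma slp_zero_case {f : MvPolynomial (Ed m (Fin 0)) ℂ} (L : ℕ) :
    SLPComputes (xv (m := m * (0 * 0))) L {out f} := by
  refine slp_mono (slp_span slp_zero ?_) (Nat.zero_le L)
  intro z hz
  rw [Set.mem_singleton_iff.mp hz, out_eq_aeval, MvPolynomial.eq_C_of_isEmpty f, aeval_C]
  exact const_mem_sp _ _

end Pool.Agent.R803.PG
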